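import Mathlib
import Pool.Agent.Helper372.SuperAt
import Pool.Agent.Y586.SA.Gen
import Pool.Agent.Y586.SA.Split

set_option autoImplicit false

/-!
Boolean algebras isomorphic to all their subalgebras of full size: the ideal of the small elements
of a counterexample, its ideals of full size and the ideals which bound superatomic ranks.
-/

open Cardinal Set
open Pool.Agent.Helper372.SuperAt
open Pool.Agent.Y586.SA

universe u

namespace Pool.Agent.U744.SA

variable {B : Type u} [BooleanAlgebra B] {κ : Cardinal.{u}}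

/-- the small elements -/
def Sm (κ : Cardinal.{u}) (B : Type u) [BooleanAlgebra B] : Set B := {b | #(Iic b) < κ}

theorem mem_Sm {b : B} : b ∈ Sm κ B ↔ #(Iic b) < κ := Iff.rfl

theorem mk_iic_sup_le (x y : B) : #(Iic (x ⊔ y)) ≤ #(Iic x) * #(Iic y) := by
  have : Function.Injective (fun z : Iic (x ⊔ y) => ((⟨(z : B) ⊓ x, inf_le_right⟩ : Iic x),
      (⟨(z : B) ⊓ y, inf_le_right⟩ : Iic y))) := by
    intro z w h
    have h1 : (z : B) ⊓ x = (w : B) ⊓ x := congrArg (fun p : Iic x × Iic y => (p.1 : B)) h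
    have h2 : (z : B) ⊓ y = (w : B) ⊓ y := congrArg (fun p : Iic x × Iic y => (p.2 : B)) h
    apply Subtype.ext
    have hz : (z : B) = ((z : B) ⊓ x) ⊔ ((z : B) ⊓ y) := by
      rw [← inf_sup_left, inf_eq_left.2 z.2]
    have hw : (w : B) = ((w : B) ⊓ x) ⊔ ((w : B) ⊓ y) := by
      rw [← inf_sup_left, inf_eq_left.2 w.2]
    rw [hz, hw, h1, h2]
  have := Cardinal.mk_le_of_injective this
  rwa [Cardinal.mk_prod, Cardinal.lift_id, Cardinal.lift_id] at this

theorem isIdl_Sm (hω : ℵ₀ ≤ κ) : IsIdl (Sm κ B) where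
  bot := by
    have h : Iic (⊥ : B) = {⊥} := by ext x; simp
    rw [mem_Sm, h, Cardinal.mk_singleton]
    exact Cardinal.one_lt_aleph0.trans_le hω
  lower := fun hxy hy => lt_of_le_of_lt (Cardinal.mk_le_mk_of_subset (Iic_subset_Iic.2 hxy)) hy
  sup := fun {x y} hx hy => (mk_iic_sup_le x y).trans_lt (Cardinal.mul_lt_of_lt hω hx hy)

/-- a set of full size inside an increasing... : `B` is an ideal together with the complements -/
theorem mk_union_compl_le (K : Set B) : #(K ∪ compl '' K : Set B) ≤ #K + #K :=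
  (Cardinal.mk_union_le _ _).trans (add_le_add le_rfl Cardinal.mk_image_le)

theorem not_both (hω : ℵ₀ ≤ κ) (hB : #B = κ) {b : B} (h1 : b ∈ Sm κ B) (h2 : bᶜ ∈ Sm κ B) :
    False := by
  rcases mk_iic_or hω hB b with h | h
  · exact absurd h (ne_of_lt h1)
  · exact absurd h (ne_of_lt h2)

theorem mk_iic_compl (hω : ℵ₀ ≤ κ) (hB : #B = κ) {b : B} (h1 : b ∈ Sm κ B) :
    #(Iic bᶜ) = κ := by
  rcases mk_iic_or hω hB b with h | h
  · exact absurd h (ne_of_lt h1)
  · exact h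

theorem small_or (hω : ℵ₀ ≤ κ) (hB : #B = κ) (hstar : Star κ B) (htop : ¬ Sc (⊤ : B)) (b : B) :
    b ∈ Sm κ B ∨ bᶜ ∈ Sm κ B := by
  by_contra hcon
  push Not at hcon
  have h1 : #(Iic b) = κ := le_antisymm (hB ▸ Cardinal.mk_set_le _) (not_lt.1 hcon.1)
  have h2 : #(Iic bᶜ) = κ := le_antisymm (hB ▸ Cardinal.mk_set_le _) (not_lt.1 hcon.2)
  exact htop (sc_top_of_split hω hB hstar h1 h2)

theorem eq_of_cover (hω : ℵ₀ ≤ κ) (hB : #B = κ) {K : Set B} (h : ∀ b : B, b ∈ K ∨ bᶜ ∈ K) :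
    #K = κ := by
  refine le_antisymm (hB ▸ Cardinal.mk_set_le _) ?_
  by_contra hlt
  push Not at hlt
  have h1 : (Set.univ : Set B) ⊆ K ∪ compl '' K := by
    intro b _
    rcases h b with h | h
    · exact Or.inl h
    · exact Or.inr ⟨bᶜ, h, compl_compl b⟩
  have h2 := (Cardinal.mk_le_mk_of_subset h1).trans (mk_union_compl_le K)
  rw [Cardinal.mk_univ, hB] at h2
  exact absurd h2 (not_le.2 (Cardinal.add_lt_of_lt hω hlt hlt))

theorem mk_Sm (hω : ℵ₀ ≤ κ) (hB : #B = κ) (hstar : Star κ B) (htop : ¬ Sc (⊤ : B)) :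
    #(Sm κ B) = κ := eq_of_cover hω hB (small_or hω hB hstar htop)

/-- there are `κ` small elements disjoint from a small element -/
theorem mk_disj (hω : ℵ₀ ≤ κ) (hB : #B = κ) (hstar : Star κ B) (htop : ¬ Sc (⊤ : B)) {b : B}
    (hb : b ∈ Sm κ B) : #{x : B | x ∈ Sm κ B ∧ x ⊓ b = ⊥} = κ := by
  refine le_antisymm (hB ▸ Cardinal.mk_set_le _) ?_
  by_contra hlt
  push Not at hlt
  have h1 : Iic bᶜ ⊆ {x : B | x ∈ Sm κ B ∧ x ⊓ b = ⊥} ∪
      (fun x => bᶜ \ x) '' {x : B | x ∈ Sm κ B ∧ x ⊓ b = ⊥} := by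
    intro x hx
    have hxb : x ⊓ b = ⊥ := (le_compl_iff_disjoint_right.1 hx).eq_bot
    rcases small_or hω hB hstar htop x with h | h
    · exact Or.inl ⟨h, hxb⟩
    · refine Or.inr ⟨bᶜ \ x, ⟨(isIdl_Sm hω).lower ?_ h, ?_⟩, ?_⟩
      · rw [_root_.sdiff_eq]
        exact inf_le_right
      · rw [_root_.sdiff_eq, inf_assoc, inf_comm xᶜ b, ← inf_assoc, compl_inf_eq_bot,
          bot_inf_eq]
      · change bᶜ \ (bᶜ \ x) = x
        rw [_root_.sdiff_sdiff_right_self]
        exact inf_eq_right.2 hx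
  have h2 := (Cardinal.mk_le_mk_of_subset h1).trans ((Cardinal.mk_union_le _ _).trans
    (add_le_add le_rfl Cardinal.mk_image_le))
  rw [mk_iic_compl hω hB hb] at h2
  exact absurd h2 (not_le.2 (Cardinal.add_lt_of_lt hω hlt hlt))

/-- the elements below an element of a subalgebra -/
theorem mk_iic_sub_le (A : BooleanSubalgebra B) (a : A) : #(Iic a) ≤ #(Iic (a : B)) := by
  refine Cardinal.mk_le_of_injective (f := fun x : Iic a => (⟨((x : A) : B), x.2⟩ : Iic (a : B)))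
    fun x y h => ?_
  exact Subtype.ext (Subtype.ext (congrArg (fun z : Iic (a : B) => (z : B)) h))

theorem mk_iic_map {C : Type u} [BooleanAlgebra C] (φ : B ≃o C) (b : B) :
    #(Iic (φ b)) = #(Iic b) := by
  refine (Cardinal.mk_congr (Equiv.subtypeEquiv φ.toEquiv fun x => ?_)).symm
  simp

theorem sm_map_iff {C : Type u} [BooleanAlgebra C] (φ : B ≃o C) {b : B} :
    φ b ∈ Sm κ C ↔ b ∈ Sm κ B := by
  rw [mem_Sm, mem_Sm, mk_iic_map]

/-- an ideal of full size inside the ideal of the small elements -/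
theorem exists_iso (hω : ℵ₀ ≤ κ) (hB : #B = κ) (hstar : Star κ B) {K : Set B} (hK : IsIdl K)
    (hKs : K ⊆ Sm κ B) (hcard : #K = κ) :
    ∃ φ : sub K hK ⊤ ≃o B, ∀ x : sub K hK ⊤, φ x ∈ Sm κ B ↔ (x : B) ∈ K := by
  obtain ⟨φ⟩ := hstar _ (mk_sub_of_mk_idl hB hK (b := ⊤) hcard)
  have key : ∀ x : sub K hK ⊤, (x : B) ∈ K → φ x ∈ Sm κ B := by
    intro x hx
    rw [sm_map_iff]
    exact (mk_iic_sub_le _ x).trans_lt (hKs hx)
  refine ⟨φ, fun x => ⟨fun h => ?_, key x⟩⟩
  rcases mem_sub_top.1 x.2 with h1 | h1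
  · exact h1
  · have h2 := key xᶜ h1
    rw [map_compl'] at h2
    exact (not_both hω hB h h2).elim

end Pool.Agent.U744.SA
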