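import Mathlib
import Pool.Agent.U744.SA.Basic

set_option autoImplicit false

/-!
Boolean algebras isomorphic to all their subalgebras of full size: the case where the small elements
have uniformly few elements below them.
-/

open Cardinal Set
open Pool.Agent.Helper372.SuperAt
open Pool.Agent.Y586.SA

universe u

namespace Pool.Agent.U744.SA

/-- a cofinal family of smaller cardinals -/
theorem exists_cofinal (κ : Cardinal.{u}) : ∃ (ι : Type u) (f : ι → Cardinal.{u}),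
    #ι = κ.ord.cof ∧ (∀ i, f i < κ) ∧ ∀ σ < κ, ∃ i, σ ≤ f i := by
  obtain ⟨s, hs, hc⟩ := Order.exists_cof_eq κ.ord.ToType
  refine ⟨s, fun i => (Ordinal.typein (α := κ.ord.ToType) (· < ·) i.1).card, ?_, ?_, ?_⟩
  · rw [hc, Ordinal.cof_toType]
  · intro i
    exact Cardinal.lt_ord.1 (Ordinal.typein_lt_self i.1)
  · intro σ hσ
    have h1 : σ.ord < Ordinal.type
        ((· < ·) : κ.ord.ToType → κ.ord.ToType → Prop) := by
      rw [Ordinal.type_toType]
      exact Cardinal.ord_lt_ord.2 hσ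
    obtain ⟨b, hb, hle⟩ := hs (Ordinal.enum (· < ·) ⟨σ.ord, h1⟩)
    refine ⟨⟨b, hb⟩, ?_⟩
    rw [← Cardinal.card_ord σ]
    apply Ordinal.card_le_card
    rw [← not_lt, ← Ordinal.typein_le_typein (α := κ.ord.ToType) (· < ·),
      Ordinal.typein_enum] at hle
    exact hle

theorem mk_finset_le (α : Type u) : #(Finset α) ≤ max #α ℵ₀ := by
  cases finite_or_infinite α with
  | inl h =>
    have := Fintype.ofFinite α
    exact (Cardinal.lt_aleph0_of_finite _).le.trans (le_max_right _ _)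
  | inr h =>
    rw [Cardinal.mk_finset_of_infinite]
    exact le_max_left _ _

variable {B : Type u} [BooleanAlgebra B] {κ : Cardinal.{u}}

theorem mk_joinSet_le (S T : Set B) : #(joinSet S T) ≤ #S * #T := by
  have : Function.Surjective (fun p : S × T => (⟨(p.1 : B) ⊔ p.2, p.1, p.1.2, p.2, p.2.2, rfl⟩ :
      joinSet S T)) := by
    rintro ⟨z, x, hx, y, hy, rfl⟩
    exact ⟨(⟨x, hx⟩, ⟨y, hy⟩), rfl⟩
  have := Cardinal.mk_le_of_surjective this
  rwa [Cardinal.mk_prod, Cardinal.lift_id, Cardinal.lift_id] at this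

/-- the ideals which bound superatomic ranks are small, but arbitrarily large below `κ` -/
theorem exists_large_Lc (hω : ℵ₀ ≤ κ) (hB : #B = κ) (hstar : Star κ B) (htop : ¬ Sc (⊤ : B))
    {σ : Cardinal.{u}} (hσ : σ < κ) : ∃ c : B, Sc c ∧ c ≠ ⊥ ∧ σ < #(Lc c) := by
  by_contra hcon
  push Not at hcon
  let f : {c : B | Sc c} → Set B := fun c =>
    {b | (c : B) ≠ ⊥ ∧ b ∈ joinSet {b : B | Sc b} (Lc (c : B))}
  have h1 : Sm κ B ⊆ ⋃ c, f c := by
    intro b hb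
    obtain ⟨c, hc, hc0, hbc⟩ := mem_join hω hB hstar htop (b := b)
      (mk_iic_compl hω hB hb)
    exact Set.mem_iUnion.2 ⟨⟨c, hc⟩, hc0, hbc⟩
  have h2 : ∀ c, #(f c) ≤ #{b : B | Sc b} * σ := by
    intro c
    by_cases hc : (c : B) = ⊥
    · have : f c = ∅ := by
        ext x
        simp [f, hc]
      rw [this, Cardinal.mk_eq_zero]
      exact zero_le
    · refine (Cardinal.mk_le_mk_of_subset (fun b hb => hb.2)).trans
        ((mk_joinSet_le {b : B | Sc b} (Lc (c : B))).trans ?_)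
      exact mul_le_mul' le_rfl (hcon c c.2 hc)
  have h3 : #(Sm κ B) ≤ #{b : B | Sc b} * (#{b : B | Sc b} * σ) := by
    refine (Cardinal.mk_le_mk_of_subset h1).trans (Cardinal.mk_iUnion_le_sum_mk.trans ?_)
    refine (Cardinal.sum_le_sum _ _ h2).trans ?_
    rw [Cardinal.sum_const']
  rw [mk_Sm hω hB hstar htop] at h3
  have h4 := mk_sc_lt hB hstar htop
  exact absurd h3 (not_le.2 (Cardinal.mul_lt_of_lt hω h4 (Cardinal.mul_lt_of_lt hω h4 hσ)))

theorem mem_Sm_of_mem_Lc {c : B} (hc : c ≠ ⊥) (hL : #(Lc c) < κ) {l : B} (hl : l ∈ Lc c) :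
    l ∈ Sm κ B := by
  refine lt_of_le_of_lt (Cardinal.mk_le_mk_of_subset fun x hx => ?_) hL
  exact (isIdl_Lc hc).lower hx hl

/-- an ideal of full size meets the rank-bounding ideals in full size -/
theorem mk_Lc_le_inter (hω : ℵ₀ ≤ κ) (hB : #B = κ) (hstar : Star κ B) {K : Set B} (hK : IsIdl K)
    (hKs : K ⊆ Sm κ B) (hcard : #K = κ) {c : B} (hc : c ≠ ⊥) (hL : #(Lc c) < κ) :
    #(Lc c) ≤ #(K ∩ Lc c : Set B) := by
  obtain ⟨φ, hφ⟩ := exists_iso hω hB hstar hK hKs hcard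
  have hmem : ∀ l : Lc c, ((φ.symm (l : B) : sub K hK ⊤) : B) ∈ K ∩ Lc c := by
    rintro ⟨l, hl⟩
    have hlK : ((φ.symm l : sub K hK ⊤) : B) ∈ K := by
      rw [← hφ, φ.apply_symm_apply]
      exact mem_Sm_of_mem_Lc hc hL hl
    refine ⟨hlK, fun x hx hsc hrk => ?_⟩
    have hxK : x ∈ K := hK.lower hx hlK
    let xA : sub K hK ⊤ := ⟨x, mem_sub_of_mem hxK⟩
    have hdown : ∀ y : B, y ≤ (xA : B) → y ∈ sub K hK ⊤ := fun y hy =>
      mem_sub_of_mem (hK.lower hy hxK)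
    have h1 : φ xA ≤ l := by
      have : xA ≤ φ.symm l := hx
      have h2 := φ.monotone this
      rwa [φ.apply_symm_apply] at h2
    have h2 : Sc (φ xA) := (sc_map_iff φ).2 ((sc_sub_iff _ xA hdown).2 hsc)
    exact hl (φ xA) h1 h2 fun γ hγ => (rkGe_map_iff φ).2 ((rkGe_sub_iff _ xA hdown).2 (hrk γ hγ))
  refine Cardinal.mk_le_of_injective (f := fun l : Lc c => (⟨_, hmem l⟩ : (K ∩ Lc c : Set B)))
    fun l m h => ?_
  have h1 : ((φ.symm (l : B) : sub K hK ⊤) : B) = ((φ.symm (m : B) : sub K hK ⊤) : B) :=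
    congrArg (fun z : (K ∩ Lc c : Set B) => (z : B)) h
  exact Subtype.ext (φ.symm.injective (Subtype.ext h1))

/-- the ideal generated by a set -/
def gen (Y : Set B) : Set B := {x | ∃ s : Finset Y, x ≤ s.sup (fun y => (y : B))}

open Classical in
theorem isIdl_gen (Y : Set B) : IsIdl (gen Y) where
  bot := ⟨∅, bot_le⟩
  lower := fun {x y} hxy ⟨s, hs⟩ => ⟨s, hxy.trans hs⟩
  sup := by
    rintro x y ⟨s, hs⟩ ⟨t, ht⟩
    refine ⟨s ∪ t, ?_⟩
    rw [Finset.sup_union]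
    exact sup_le_sup hs ht

theorem subset_gen {Y : Set B} {y : B} (hy : y ∈ Y) : y ∈ gen Y :=
  ⟨{⟨y, hy⟩}, by rw [Finset.sup_singleton]⟩

open Classical in
theorem gen_mono {Y Z : Set B} (h : Y ⊆ Z) : gen Y ⊆ gen Z := by
  rintro x ⟨s, hs⟩
  refine ⟨s.image (fun y => ⟨y.1, h y.2⟩), hs.trans ?_⟩
  rw [Finset.sup_image]
  exact le_rfl

theorem sup_mem_of_isIdl {K : Set B} (hK : IsIdl K) {Y : Set B} (hY : Y ⊆ K) (s : Finset Y) :
    s.sup (fun y => (y : B)) ∈ K := by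
  classical
  induction s using Finset.induction_on with
  | empty => rw [Finset.sup_empty]; exact hK.bot
  | insert a s ha ih =>
    rw [Finset.sup_insert]
    exact hK.sup (hY a.2) ih

theorem gen_subset {K : Set B} (hK : IsIdl K) {Y : Set B} (hY : Y ⊆ K) : gen Y ⊆ K := by
  rintro x ⟨s, hs⟩
  exact hK.lower hs (sup_mem_of_isIdl hK hY s)

theorem mk_gen_le {θ : Cardinal.{u}} {K : Set B} (hK : IsIdl K) (hθ : ∀ b ∈ K, #(Iic b) ≤ θ)
    {Y : Set B} (hY : Y ⊆ K) : #(gen Y) ≤ max #Y ℵ₀ * θ := by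
  have h1 : gen Y ⊆ ⋃ s : Finset Y, Iic (s.sup (fun y => (y : B))) := by
    rintro x ⟨s, hs⟩
    exact Set.mem_iUnion.2 ⟨s, hs⟩
  refine (Cardinal.mk_le_mk_of_subset h1).trans (Cardinal.mk_iUnion_le_sum_mk.trans ?_)
  refine (Cardinal.sum_le_sum _ _ fun s => hθ _ (sup_mem_of_isIdl hK hY s)).trans ?_
  rw [Cardinal.sum_const']
  exact mul_le_mul' (mk_finset_le _) le_rfl

/-- the small elements whose trace on `L` lies in the ideal generated by `Y` -/
def trc (κ : Cardinal.{u}) (L Y : Set B) : Set B := {z | z ∈ Sm κ B ∧ ∀ l ∈ L, l ≤ z → l ∈ gen Y}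

theorem isIdl_trc (hω : ℵ₀ ≤ κ) {L : Set B} (hL : IsIdl L) (Y : Set B) : IsIdl (trc κ L Y) where
  bot := ⟨(isIdl_Sm hω).bot, fun l _ hl0 => by
    rw [le_bot_iff.1 hl0]
    exact (isIdl_gen Y).bot⟩
  lower := fun {x y} hxy hy => ⟨(isIdl_Sm hω).lower hxy hy.1, fun l hl hlx =>
    hy.2 l hl (hlx.trans hxy)⟩
  sup := fun {x y} hx hy => ⟨(isIdl_Sm hω).sup hx.1 hy.1, fun l hl hlz => by
    have h1 := hx.2 (l ⊓ x) (hL.lower inf_le_left hl) inf_le_right
    have h2 := hy.2 (l ⊓ y) (hL.lower inf_le_left hl) inf_le_right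
    have h3 : l = (l ⊓ x) ⊔ (l ⊓ y) := by rw [← inf_sup_left, inf_eq_left.2 hlz]
    rw [h3]
    exact (isIdl_gen Y).sup h1 h2⟩

theorem trc_mono {L Y Z : Set B} (h : Y ⊆ Z) : trc κ L Y ⊆ trc κ L Z :=
  fun _ hz => ⟨hz.1, fun l hl hlz => gen_mono h (hz.2 l hl hlz)⟩

/-- the covering condition -/
def CoverProp (κ : Cardinal.{u}) : Prop := ∀ θ < κ, ∃ μ < κ, ∀ S : Type u, #S < κ →
  ∃ F : Set (Set S), #F < κ ∧ (∀ Y ∈ F, #Y ≤ μ) ∧ ∀ W : Set S, #W ≤ θ → ∃ Y ∈ F, W ⊆ Y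

/-- the bounded case -/
theorem bounded_false (hω : ℵ₀ ≤ κ) (hB : #B = κ) (hstar : Star κ B) (htop : ¬ Sc (⊤ : B))
    (hcof : κ.ord.cof < κ) (hcov : CoverProp κ) {θ : Cardinal.{u}} (hθ : θ < κ)
    (hb : ∀ b ∈ Sm κ B, #(Iic b) ≤ θ) : False := by
  have hωκ : ℵ₀ < κ := by
    refine lt_of_le_of_ne hω fun h => ?_
    rw [← h, Cardinal.ord_aleph0, Ordinal.cof_omega0] at hcof
    exact lt_irrefl _ hcof
  obtain ⟨μ, hμ, hcovμ⟩ := hcov θ hθ
  -- a common bound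
  set τ : Cardinal.{u} := max (max μ θ) (max κ.ord.cof ℵ₀) with hτ
  have hτκ : τ < κ := max_lt (max_lt hμ hθ) (max_lt hcof hωκ)
  have hωτ : ℵ₀ ≤ τ := (le_max_right _ _).trans (le_max_right _ _)
  have hμτ : μ ≤ τ := (le_max_left _ _).trans (le_max_left _ _)
  have hθτ : θ ≤ τ := (le_max_right _ _).trans (le_max_left _ _)
  have hcτ : κ.ord.cof ≤ τ := (le_max_left _ _).trans (le_max_right _ _)
  obtain ⟨c, hc, hc0, hcL⟩ := exists_large_Lc hω hB hstar htop hτκ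
  have hLκ : #(Lc c) < κ := mk_Lc_lt hω hB hstar htop hc0 hc
  have hL : IsIdl (Lc c) := isIdl_Lc hc0
  have hLS : Lc c ⊆ Sm κ B := fun l hl => mem_Sm_of_mem_Lc hc0 hLκ hl
  -- no set of at most `τ` elements of `L` carries the traces of `κ` elements
  have key : ∀ Y : Set B, Y ⊆ Lc c → #Y ≤ τ → #(trc κ (Lc c) Y) < κ := by
    intro Y hY hYc
    refine lt_of_le_of_ne (hB ▸ Cardinal.mk_set_le _) fun h => ?_
    have h1 := mk_Lc_le_inter hω hB hstar (isIdl_trc hω hL Y) (fun z hz => hz.1) h hc0 hLκ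
    have h2 : (trc κ (Lc c) Y ∩ Lc c : Set B) ⊆ gen Y := fun z hz => hz.1.2 z hz.2 le_rfl
    have h3 := h1.trans ((Cardinal.mk_le_mk_of_subset h2).trans
      (mk_gen_le (isIdl_Sm hω) hb (hY.trans hLS)))
    refine absurd h3 (not_le.2 (lt_of_le_of_lt ?_ hcL))
    exact (mul_le_mul' (max_le hYc hωτ) hθτ).trans (Cardinal.mul_eq_self hωτ).le
  -- the covering family
  obtain ⟨F, hF, hF1, hF2⟩ := hcovμ (Lc c) hLκ
  let G : Set (Lc c) → Set B := fun Y => (fun y : Lc c => (y : B)) '' Y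
  have hG : ∀ Y, G Y ⊆ Lc c := by
    rintro Y _ ⟨y, -, rfl⟩
    exact y.2
  have hcover : ∀ z ∈ Sm κ B, ∃ Y ∈ F, z ∈ trc κ (Lc c) (G Y) := by
    intro z hz
    have h1 : #{l : Lc c | (l : B) ≤ z} ≤ θ := by
      refine le_trans ?_ (hb z hz)
      refine Cardinal.mk_le_of_injective (f := fun l : {l : Lc c | (l : B) ≤ z} =>
        (⟨((l : Lc c) : B), l.2⟩ : Iic z)) fun l m h => ?_
      exact Subtype.ext (Subtype.ext (congrArg (fun w : Iic z => (w : B)) h))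
    obtain ⟨Y, hY, hWY⟩ := hF2 _ h1
    refine ⟨Y, hY, hz, fun l hl hlz => subset_gen ⟨⟨l, hl⟩, hWY ?_, rfl⟩⟩
    exact hlz
  have hlarge : ∀ σ < κ, ∃ Y ∈ F, σ ≤ #(trc κ (Lc c) (G Y)) := by
    intro σ hσ
    by_contra hcon
    push Not at hcon
    have h1 : Sm κ B ⊆ ⋃ Y : F, trc κ (Lc c) (G Y) := by
      intro z hz
      obtain ⟨Y, hY, hzY⟩ := hcover z hz
      exact Set.mem_iUnion.2 ⟨⟨Y, hY⟩, hzY⟩
    have h2 : #(Sm κ B) ≤ #F * σ := by
      refine (Cardinal.mk_le_mk_of_subset h1).trans (Cardinal.mk_iUnion_le_sum_mk.trans ?_)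
      refine (Cardinal.sum_le_sum _ _ fun Y : F => (hcon Y Y.2).le).trans ?_
      rw [Cardinal.sum_const']
    rw [mk_Sm hω hB hstar htop] at h2
    exact absurd h2 (not_le.2 (Cardinal.mul_lt_of_lt hω hF hσ))
  obtain ⟨ι, f, hι, hf1, hf2⟩ := exists_cofinal κ
  choose Y hY hYf using fun i : ι => hlarge (f i) (hf1 i)
  have hU : #(⋃ i, G (Y i) : Set B) ≤ τ := by
    refine Cardinal.mk_iUnion_le_sum_mk.trans ?_
    have h1 : ∀ i, #(G (Y i)) ≤ μ := fun i => Cardinal.mk_image_le.trans (hF1 _ (hY i))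
    refine (Cardinal.sum_le_sum _ _ h1).trans ?_
    rw [Cardinal.sum_const', hι]
    exact (mul_le_mul' hcτ hμτ).trans (Cardinal.mul_eq_self hωτ).le
  have hlt := key (⋃ i, G (Y i)) (Set.iUnion_subset fun i => hG _) hU
  obtain ⟨i, hi⟩ := hf2 _ hlt
  obtain ⟨j, hj⟩ := hf2 _ (lt_of_le_of_lt hi (hf1 i) |> fun h => hωκ)
  have h5 : #(trc κ (Lc c) (G (Y i))) ≤ #(trc κ (Lc c) (⋃ i, G (Y i))) :=
    Cardinal.mk_le_mk_of_subset (trc_mono (Set.subset_iUnion (fun i => G (Y i)) i))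
  -- compare with a larger member
  have h6 : ∀ σ < κ, σ ≤ #(trc κ (Lc c) (⋃ i, G (Y i))) := by
    intro σ hσ
    obtain ⟨i, hi⟩ := hf2 σ hσ
    exact (hi.trans (hYf i)).trans (Cardinal.mk_le_mk_of_subset
      (trc_mono (Set.subset_iUnion (fun i => G (Y i)) i)))
  have h7 := h6 (Order.succ #(trc κ (Lc c) (⋃ i, G (Y i)))) ?_
  · exact absurd h7 (not_le.2 (Order.lt_succ _))
  · -- `κ` is a limit
    by_contra hnot
    have h8 : κ ≤ Order.succ #(trc κ (Lc c) (⋃ i, G (Y i))) := not_lt.1 hnot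
    have h9 : κ = Order.succ #(trc κ (Lc c) (⋃ i, G (Y i))) :=
      le_antisymm h8 (Order.succ_le_of_lt hlt)
    have h10 : ℵ₀ ≤ #(trc κ (Lc c) (⋃ i, G (Y i))) := by
      by_contra h11
      push Not at h11
      have h12 : Order.succ #(trc κ (Lc c) (⋃ i, G (Y i))) ≤ ℵ₀ := Order.succ_le_of_lt h11
      rw [← h9] at h12
      exact absurd hωκ (not_lt.2 h12)
    have h11 := (Cardinal.isRegular_succ h10).cof_ord
    rw [← h9] at h11
    exact absurd h11 (ne_of_lt hcof)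

end Pool.Agent.U744.SA
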