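import Mathlib
import Pool.Agent.U744.SA.Bound

set_option autoImplicit false

/-!
Closing off under operations on small subsets.
-/

open Cardinal Set

universe u

namespace Pool.Agent.U744.SA

section Closure

variable {α : Type u} {ν m : Cardinal.{u}}

/-- the levels of the closure -/
def lev (ν : Cardinal.{u}) (Φ : Set α → Set α) (X : Set α) (w : ν.ord.ToType) : Set α :=
  X ∪ {y | ∃ v, ∃ _ : v < w, y ∈ lev ν Φ X v ∨ ∃ D, D ⊆ lev ν Φ X v ∧ #D < ν ∧ y ∈ Φ D}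
termination_by w

theorem lev_eq (Φ : Set α → Set α) (X : Set α) (w : ν.ord.ToType) : lev ν Φ X w =
    X ∪ {y | ∃ v, ∃ _ : v < w, y ∈ lev ν Φ X v ∨ ∃ D, D ⊆ lev ν Φ X v ∧ #D < ν ∧ y ∈ Φ D} := by
  rw [lev]

/-- one step of the closure -/
def step (ν : Cardinal.{u}) (Φ : Set α → Set α) (S : Set α) : Set α :=
  S ∪ {y | ∃ D, D ⊆ S ∧ #D < ν ∧ y ∈ Φ D}

theorem step_subset_lev (Φ : Set α → Set α) (X : Set α) {v w : ν.ord.ToType} (h : v < w) :
    step ν Φ (lev ν Φ X v) ⊆ lev ν Φ X w := by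
  intro y hy
  rw [lev_eq]
  exact Or.inr ⟨v, h, hy⟩

theorem mk_small_subsets (hν : ν.IsRegular) (hνm : ν ≤ m) (hm : ∀ τ < ν, m ^ τ ≤ m) {S : Set α}
    (hS : #S ≤ m) : #{D : Set α | D ⊆ S ∧ #D < ν} ≤ m := by
  have hωm : ℵ₀ ≤ m := hν.aleph0_le.trans hνm
  obtain ⟨ι, f, hι, hf1, hf2⟩ := exists_cofinal ν
  have h1 : {D : Set α | D ⊆ S ∧ #D < ν} ⊆ ⋃ i, {D : Set α | D ⊆ S ∧ #D ≤ f i} := by
    rintro D ⟨hD, hc⟩
    obtain ⟨i, hi⟩ := hf2 _ hc
    exact Set.mem_iUnion.2 ⟨i, hD, hi⟩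
  refine (Cardinal.mk_le_mk_of_subset h1).trans (Cardinal.mk_iUnion_le_sum_mk.trans ?_)
  have h2 : ∀ i, #{D : Set α | D ⊆ S ∧ #D ≤ f i} ≤ m := by
    intro i
    refine (Cardinal.mk_bounded_subset_le S (f i)).trans ?_
    exact (Cardinal.power_le_power_right (max_le hS hωm)).trans (hm _ (hf1 i))
  refine (Cardinal.sum_le_sum _ _ h2).trans ?_
  rw [Cardinal.sum_const', hι, hν.cof_ord]
  exact (mul_le_mul' hνm le_rfl).trans (Cardinal.mul_eq_self hωm).le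

theorem mk_step (hν : ν.IsRegular) (hνm : ν ≤ m) (hm : ∀ τ < ν, m ^ τ ≤ m)
    (Φ : Set α → Set α) (hΦ : ∀ D : Set α, #D < ν → #(Φ D) ≤ m) {S : Set α} (hS : #S ≤ m) :
    #(step ν Φ S) ≤ m := by
  have hωm : ℵ₀ ≤ m := hν.aleph0_le.trans hνm
  have h1 : {y | ∃ D, D ⊆ S ∧ #D < ν ∧ y ∈ Φ D} ⊆
      ⋃ D : {D : Set α | D ⊆ S ∧ #D < ν}, Φ D := by
    rintro y ⟨D, hD, hc, hy⟩
    exact Set.mem_iUnion.2 ⟨⟨D, hD, hc⟩, hy⟩
  have h2 : #{y | ∃ D, D ⊆ S ∧ #D < ν ∧ y ∈ Φ D} ≤ m := by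
    refine (Cardinal.mk_le_mk_of_subset h1).trans (Cardinal.mk_iUnion_le_sum_mk.trans ?_)
    refine (Cardinal.sum_le_sum _ _ fun D : {D : Set α | D ⊆ S ∧ #D < ν} =>
      hΦ D.1 D.2.2).trans ?_
    rw [Cardinal.sum_const']
    exact (mul_le_mul' (mk_small_subsets hν hνm hm hS) le_rfl).trans (Cardinal.mul_eq_self hωm).le
  exact (Cardinal.mk_union_le _ _).trans ((add_le_add hS h2).trans (Cardinal.add_eq_self hωm).le)

theorem mk_lev (hν : ν.IsRegular) (hνm : ν ≤ m) (hm : ∀ τ < ν, m ^ τ ≤ m)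
    (Φ : Set α → Set α) (hΦ : ∀ D : Set α, #D < ν → #(Φ D) ≤ m) {X : Set α} (hX : #X ≤ m)
    (w : ν.ord.ToType) : #(lev ν Φ X w) ≤ m := by
  have hωm : ℵ₀ ≤ m := hν.aleph0_le.trans hνm
  induction w using WellFoundedLT.induction with
  | _ w ih =>
    have h1 : lev ν Φ X w ⊆ X ∪ ⋃ v : Iio w, step ν Φ (lev ν Φ X v) := by
      intro y hy
      rw [lev_eq] at hy
      rcases hy with hy | ⟨v, hv, hy⟩
      · exact Or.inl hy
      · exact Or.inr (Set.mem_iUnion.2 ⟨⟨v, hv⟩, hy⟩)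
    have h2 : #(⋃ v : Iio w, step ν Φ (lev ν Φ X v) : Set α) ≤ m := by
      refine Cardinal.mk_iUnion_le_sum_mk.trans ?_
      refine (Cardinal.sum_le_sum _ _ fun v : Iio w => mk_step hν hνm hm Φ hΦ (ih v v.2)).trans ?_
      rw [Cardinal.sum_const']
      have h3 : #(Iio w) ≤ ν := by
        refine (Cardinal.mk_set_le _).trans ?_
        rw [Cardinal.mk_toType, Cardinal.card_ord]
      exact (mul_le_mul' (h3.trans hνm) le_rfl).trans (Cardinal.mul_eq_self hωm).le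
    exact (Cardinal.mk_le_mk_of_subset h1).trans ((Cardinal.mk_union_le _ _).trans
      ((add_le_add hX h2).trans (Cardinal.add_eq_self hωm).le))

/-- closing off under operations on subsets of size less than `ν` -/
theorem exists_closed (hν : ν.IsRegular) (hνm : ν ≤ m) (hm : ∀ τ < ν, m ^ τ ≤ m)
    (Φ : Set α → Set α) (hΦ : ∀ D : Set α, #D < ν → #(Φ D) ≤ m) {X : Set α} (hX : #X ≤ m) :
    ∃ A : Set α, X ⊆ A ∧ #A ≤ m ∧ ∀ D ⊆ A, #D < ν → Φ D ⊆ A := by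
  have hωm : ℵ₀ ≤ m := hν.aleph0_le.trans hνm
  have hne : Nonempty ν.ord.ToType := by
    rw [← Cardinal.mk_ne_zero_iff, Cardinal.mk_toType, Cardinal.card_ord]
    exact hν.pos.ne'
  refine ⟨⋃ w : ν.ord.ToType, step ν Φ (lev ν Φ X w), ?_, ?_, ?_⟩
  · intro x hx
    refine Set.mem_iUnion.2 ⟨hne.some, Or.inl ?_⟩
    rw [lev_eq]
    exact Or.inl hx
  · refine Cardinal.mk_iUnion_le_sum_mk.trans ?_
    refine (Cardinal.sum_le_sum _ _ fun w => mk_step hν hνm hm Φ hΦ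
      (mk_lev hν hνm hm Φ hΦ hX w)).trans ?_
    rw [Cardinal.sum_const', Cardinal.mk_toType, Cardinal.card_ord]
    exact (mul_le_mul' hνm le_rfl).trans (Cardinal.mul_eq_self hωm).le
  · intro D hD hc
    choose! g hg using fun (d : α) (hd : d ∈ D) => Set.mem_iUnion.1 (hD hd)
    have h1 : ¬ IsCofinal (g '' D) := by
      intro h
      have h2 := Order.cof_le h
      rw [Ordinal.cof_toType, hν.cof_ord] at h2
      exact absurd (h2.trans Cardinal.mk_image_le) (not_le.2 hc)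
    simp only [IsCofinal, not_forall, not_exists, not_and, not_le] at h1
    obtain ⟨w, hw⟩ := h1
    have h2 : D ⊆ lev ν Φ X w := fun d hd => step_subset_lev Φ X (hw (g d) ⟨d, hd, rfl⟩) (hg d hd)
    intro y hy
    exact Set.mem_iUnion.2 ⟨w, Or.inr ⟨D, h2, hc, hy⟩⟩

end Closure

end Pool.Agent.U744.SA
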