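import Mathlib
import Pool.Agent.U744.SA.Bound

set_option autoImplicit false

/-!
Cardinals closed under small powers.
-/

open Cardinal Ordinal Set

universe u

namespace Pool.Agent.U744.SA

variable {σ : Cardinal.{u}} {β : Type u}

/-- the functions of bounded support on `σ` -/
def BF (σ : Cardinal.{u}) (β : Type u) : Set (σ.ord.ToType → Option β) :=
  {f | ∃ w, ∀ v, w ≤ v → f v = none}

theorem mk_Iio_lt (w : σ.ord.ToType) : #(Iio w) < σ := by
  have h := Ordinal.typein_lt_self (o := σ.ord) w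
  rw [Cardinal.lt_ord] at h
  refine lt_of_eq_of_lt ?_ h
  rfl

theorem exists_mk_Iio {ρ : Cardinal.{u}} (hρ : ρ < σ) : ∃ w : σ.ord.ToType, #(Iio w) = ρ := by
  have h1 : ρ.ord < Ordinal.type ((· < ·) : σ.ord.ToType → σ.ord.ToType → Prop) := by
    rw [Ordinal.type_toType]
    exact Cardinal.ord_lt_ord.2 hρ
  refine ⟨Ordinal.enum (· < ·) ⟨ρ.ord, h1⟩, ?_⟩
  have h2 : #(Iio (Ordinal.enum ((· < ·) : σ.ord.ToType → σ.ord.ToType → Prop) ⟨ρ.ord, h1⟩)) =
      (Ordinal.typein ((· < ·) : σ.ord.ToType → σ.ord.ToType → Prop)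
        (Ordinal.enum ((· < ·) : σ.ord.ToType → σ.ord.ToType → Prop) ⟨ρ.ord, h1⟩)).card := rfl
  rw [h2, Ordinal.typein_enum, Cardinal.card_ord]

open Classical in
theorem pow_le_mk_BF {ρ : Cardinal.{u}} (hρ : ρ < σ) : #(Option β) ^ ρ ≤ #(BF σ β) := by
  obtain ⟨w, hw⟩ := exists_mk_Iio hρ
  rw [← hw, Cardinal.power_def]
  refine Cardinal.mk_le_of_injective (f := fun g : Iio w → Option β =>
    (⟨fun v => if h : v < w then g ⟨v, h⟩ else none, w, fun v hv => by
      simp [not_lt.2 hv]⟩ : BF σ β)) fun g g' h => ?_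
  funext v
  have h1 := congrFun (congrArg (fun z : BF σ β => (z : σ.ord.ToType → Option β)) h) v.1
  have h2 : v.1 < w := v.2
  simpa [h2] using h1

theorem mk_support_le (w : σ.ord.ToType) :
    #{f : σ.ord.ToType → Option β | ∀ v, w ≤ v → f v = none} ≤ #(Option β) ^ #(Iio w) := by
  rw [Cardinal.power_def]
  refine Cardinal.mk_le_of_injective (f := fun f : {f : σ.ord.ToType → Option β |
    ∀ v, w ≤ v → f v = none} => fun v : Iio w => (f : σ.ord.ToType → Option β) v) fun f g h => ?_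
  apply Subtype.ext
  funext v
  rcases lt_or_ge v w with hv | hv
  · exact congrFun h ⟨v, hv⟩
  · rw [f.2 v hv, g.2 v hv]

theorem mk_BF_le {c : Cardinal.{u}} (hc : ℵ₀ ≤ c) (hσc : σ ≤ c)
    (h : ∀ ρ < σ, #(Option β) ^ ρ ≤ c) : #(BF σ β) ≤ c := by
  have h1 : BF σ β ⊆ ⋃ w, {f : σ.ord.ToType → Option β | ∀ v, w ≤ v → f v = none} := by
    rintro f ⟨w, hw⟩
    exact Set.mem_iUnion.2 ⟨w, hw⟩
  refine (Cardinal.mk_le_mk_of_subset h1).trans (Cardinal.mk_iUnion_le_sum_mk.trans ?_)
  refine (Cardinal.sum_le_sum _ _ fun w => (mk_support_le w).trans (h _ (mk_Iio_lt w))).trans ?_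
  rw [Cardinal.sum_const', Cardinal.mk_toType, Cardinal.card_ord]
  exact (mul_le_mul' hσc le_rfl).trans (Cardinal.mul_eq_self hc).le

theorem two_le_option [Nonempty β] : (2 : Cardinal.{u}) ≤ #(Option β) := by
  rw [Cardinal.mk_option, ← one_add_one_eq_two]
  exact add_le_add (Cardinal.one_le_iff_ne_zero.2 (Cardinal.mk_ne_zero β)) le_rfl

theorem le_mk_BF [Nonempty β] : σ ≤ #(BF σ β) := by
  by_contra h
  push Not at h
  have h1 := pow_le_mk_BF (β := β) h
  have h2 : (2 : Cardinal.{u}) ^ #(BF σ β) ≤ #(BF σ β) :=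
    (Cardinal.power_le_power_right two_le_option).trans h1
  exact absurd h2 (not_le.2 (Cardinal.cantor _))

theorem mk_le_mk_BF (hσ : ℵ₀ ≤ σ) : #β ≤ #(BF σ β) := by
  have h := pow_le_mk_BF (β := β) (Cardinal.one_lt_aleph0.trans_le hσ)
  rw [Cardinal.power_one, Cardinal.mk_option] at h
  exact (self_le_add_right _ _).trans h

/-- closure under small powers -/
theorem mk_BF_pow [Nonempty β] (hσ : σ.IsRegular) {τ : Cardinal.{u}} (hτ : τ < σ) :
    #(BF σ β) ^ τ ≤ #(BF σ β) := by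
  have hωM : ℵ₀ ≤ #(BF σ β) := hσ.aleph0_le.trans le_mk_BF
  rw [← Cardinal.mk_out τ] at hτ ⊢
  set T : Type u := τ.out
  let F : σ.ord.ToType → Set (T → σ.ord.ToType → Option β) := fun w =>
    {f | ∀ t v, w ≤ v → f t v = none}
  have hF : ∀ w, #(F w) ≤ #(BF σ β) := by
    intro w
    have h1 : #(F w) ≤ #(T → Iio w → Option β) := by
      refine Cardinal.mk_le_of_injective (f := fun f : F w => fun (t : T) (v : Iio w) =>
        (f : T → σ.ord.ToType → Option β) t v) fun f g h => ?_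
      apply Subtype.ext
      funext t v
      rcases lt_or_ge v w with hv | hv
      · exact congrFun (congrFun h t) ⟨v, hv⟩
      · rw [f.2 t v hv, g.2 t v hv]
    refine h1.trans ?_
    rw [← Cardinal.power_def, ← Cardinal.power_def, ← Cardinal.power_mul]
    exact pow_le_mk_BF (Cardinal.mul_lt_of_lt hσ.aleph0_le (mk_Iio_lt w) hτ)
  have hU : #(⋃ w, F w : Set (T → σ.ord.ToType → Option β)) ≤ #(BF σ β) := by
    refine Cardinal.mk_iUnion_le_sum_mk.trans ?_
    refine (Cardinal.sum_le_sum _ _ hF).trans ?_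
    rw [Cardinal.sum_const', Cardinal.mk_toType, Cardinal.card_ord]
    exact (mul_le_mul' le_mk_BF le_rfl).trans (Cardinal.mul_eq_self hωM).le
  refine le_trans ?_ hU
  rw [Cardinal.power_def]
  have hmem : ∀ f : T → BF σ β, (fun t => ((f t : BF σ β) : σ.ord.ToType → Option β)) ∈
      ⋃ w, F w := by
    intro f
    choose w hw using fun t => (f t).2
    have h1 : ¬ IsCofinal (Set.range w) := by
      intro h
      have h2 := Order.cof_le h
      rw [Ordinal.cof_toType, hσ.cof_ord] at h2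
      exact absurd (h2.trans Cardinal.mk_range_le) (not_le.2 hτ)
    simp only [IsCofinal, not_forall, not_exists, not_and, not_le] at h1
    obtain ⟨w0, hw0⟩ := h1
    exact Set.mem_iUnion.2 ⟨w0, fun t v hv => hw t v ((hw0 _ ⟨t, rfl⟩).le.trans hv)⟩
  refine Cardinal.mk_le_of_injective (f := fun f : T → BF σ β => (⟨_, hmem f⟩ :
    (⋃ w, F w : Set (T → σ.ord.ToType → Option β)))) fun f g h => ?_
  funext t
  apply Subtype.ext
  exact congrFun (congrArg (fun z : (⋃ w, F w : Set (T → σ.ord.ToType → Option β)) =>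
    (z : T → σ.ord.ToType → Option β)) h) t

end Pool.Agent.U744.SA
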