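import Mathlib
import Pool.Agent.U744.SA.Power

set_option autoImplicit false

/-!
Covering families below a cardinal, when all the cardinals of a final segment are regular.
-/

open Cardinal Ordinal Set

universe u

namespace Pool.Agent.U744.SA

/-- covering families for a set all of whose larger cardinals are regular -/
theorem exists_cover {κ θ : Cardinal.{u}} (hθ : ℵ₀ ≤ θ)
    (hreg : ∀ h, θ < h → h < κ → h.IsRegular) : ∀ (h : Cardinal.{u}) (S : Type u), #S = h → h < κ →
    ∃ F : Set (Set S), #F ≤ max h θ ∧ (∀ Y ∈ F, #Y ≤ θ) ∧ ∀ W : Set S, #W ≤ θ → ∃ Y ∈ F, W ⊆ Y := by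
  intro h
  induction h using WellFoundedLT.induction with
  | ind h ih =>
    intro S hS hκ
    rcases le_or_gt h θ with hle | hgt
    · refine ⟨{Set.univ}, ?_, ?_, fun W _ => ⟨Set.univ, rfl, Set.subset_univ _⟩⟩
      · rw [Cardinal.mk_singleton]
        exact (Cardinal.one_lt_aleph0.le.trans hθ).trans (le_max_right _ _)
      · rintro Y rfl
        rw [Cardinal.mk_univ, hS]
        exact hle
    · have hr := hreg h hgt hκ
      obtain ⟨e⟩ : Nonempty (S ≃ h.ord.ToType) := Cardinal.eq.1 (by
        rw [hS, Cardinal.mk_toType, Cardinal.card_ord])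
      -- families on the initial segments
      choose F hF1 hF2 hF3 using fun w : h.ord.ToType =>
        ih #(Iio w) (mk_Iio_lt w) (Iio w) rfl ((mk_Iio_lt w).trans hκ)
      let G : h.ord.ToType → Set (Set S) := fun w =>
        (fun Y : Set (Iio w) => e ⁻¹' ((fun y : Iio w => (y : h.ord.ToType)) '' Y)) '' F w
      refine ⟨⋃ w, G w, ?_, ?_, ?_⟩
      · refine Cardinal.mk_iUnion_le_sum_mk.trans ?_
        have h1 : ∀ w, #(G w) ≤ h := by
          intro w
          refine Cardinal.mk_image_le.trans ((hF1 w).trans ?_)
          exact max_le (mk_Iio_lt w).le hgt.le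
        refine (Cardinal.sum_le_sum _ _ h1).trans ?_
        rw [Cardinal.sum_const', Cardinal.mk_toType, Cardinal.card_ord]
        exact (Cardinal.mul_eq_self hr.aleph0_le).le.trans (le_max_left _ _)
      · intro Y hY
        obtain ⟨w, Z, hZ, rfl⟩ := Set.mem_iUnion.1 hY
        refine le_trans ?_ (hF2 w Z hZ)
        refine le_trans ?_ (Cardinal.mk_image_le (f := fun y : Iio w => (y : h.ord.ToType)) (s := Z))
        exact Cardinal.mk_preimage_of_injective _ _ e.injective
      · intro W hW
        have h1 : ¬ IsCofinal (e '' W) := by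
          intro h
          have h2 := Order.cof_le h
          rw [Ordinal.cof_toType, hr.cof_ord] at h2
          exact absurd (h2.trans Cardinal.mk_image_le) (not_le.2 (hW.trans_lt hgt))
        simp only [IsCofinal, not_forall, not_exists, not_and, not_le] at h1
        obtain ⟨w, hw⟩ := h1
        have h2 : #{y : Iio w | e.symm (y : h.ord.ToType) ∈ W} ≤ θ := by
          refine le_trans ?_ hW
          refine Cardinal.mk_le_of_injective (f := fun y : {y : Iio w | e.symm
            (y : h.ord.ToType) ∈ W} => (⟨_, y.2⟩ : W)) fun x y hxy => ?_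
          have h3 : e.symm ((x : Iio w) : h.ord.ToType) = e.symm ((y : Iio w) : h.ord.ToType) :=
            congrArg (fun z : W => (z : S)) hxy
          exact Subtype.ext (Subtype.ext (e.symm.injective h3))
        obtain ⟨Y, hY, hWY⟩ := hF3 w _ h2
        refine ⟨_, Set.mem_iUnion.2 ⟨w, Y, hY, rfl⟩, fun x hx => ?_⟩
        have h4 : e x < w := hw _ ⟨x, hx, rfl⟩
        refine ⟨⟨e x, h4⟩, hWY ?_, rfl⟩
        change e.symm (e x) ∈ W
        rw [e.symm_apply_apply]
        exact hx

end Pool.Agent.U744.SA
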