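import Mathlib
import Pool.Agent.U744.SA.Closure

set_option autoImplicit false

/-!
An algebra without large disjoint families outside of a small ideal and without large independent
families is small.
-/

open Cardinal Set
open Pool.Agent.Helper372.SuperAt

universe u

namespace Pool.Agent.U744.SA

variable {B : Type u} [BooleanAlgebra B] {ν m : Cardinal.{u}}

/-- `X` is independent below `e` modulo `P` -/
def Ind (P : Set B) (e : B) (X : Set B) : Prop := X ⊆ Iic e ∧ ∀ F G : Finset B, (F : Set B) ⊆ X →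
  (G : Set B) ⊆ X → Disjoint F G → (e ⊓ F.inf id) \ G.sup id ∉ P

theorem ind_empty {P : Set B} {e : B} (he : e ∉ P) : Ind P e ∅ := by
  refine ⟨Set.empty_subset _, fun F G hF hG _ => ?_⟩
  rw [Set.subset_empty_iff, Finset.coe_eq_empty] at hF hG
  rw [hF, hG, Finset.inf_empty, Finset.sup_empty, inf_top_eq, sdiff_bot]
  exact he

open Classical in
theorem exists_max_ind {P : Set B} {e : B} (he : e ∉ P) :
    ∃ X, Ind P e X ∧ ∀ Y, Ind P e Y → X ⊆ Y → Y ⊆ X := by
  obtain ⟨X, -, hX⟩ := zorn_subset_nonempty {X : Set B | Ind P e X} (fun c hc hch hne => by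
    refine ⟨⋃₀ c, ⟨Set.sUnion_subset fun s hs => (hc hs).1, fun F G hF hG hFG => ?_⟩,
      fun s hs => Set.subset_sUnion_of_mem hs⟩
    obtain ⟨s, hs, hs'⟩ := hch.directedOn.exists_mem_subset_of_finite_of_subset_sUnion hne
      (s := ((F ∪ G : Finset B) : Set B)) (Finset.finite_toSet _)
      (by rw [Finset.coe_union]; exact Set.union_subset hF hG)
    rw [Finset.coe_union, Set.union_subset_iff] at hs'
    exact (hc hs).2 F G hs'.1 hs'.2 hFG) ∅ (ind_empty he)
  exact ⟨X, hX.prop, fun Y hY hXY => hX.le_of_ge hY hXY⟩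

/-- the elementary products stay in closed sets -/
theorem inf_mem_of_closed {A : Set B} (hinf : ∀ x ∈ A, ∀ y ∈ A, x ⊓ y ∈ A) {e : B} (he : e ∈ A)
    (F : Finset B) (hF : (F : Set B) ⊆ A) : e ⊓ F.inf id ∈ A := by
  classical
  induction F using Finset.induction_on with
  | empty => rwa [Finset.inf_empty, inf_top_eq]
  | insert x F hx ih =>
    rw [Finset.inf_insert, id, inf_left_comm]
    rw [Finset.coe_insert, Set.insert_subset_iff] at hF
    exact hinf _ hF.1 _ (ih hF.2)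

theorem sdiff_mem_of_closed {A : Set B} (hsd : ∀ x ∈ A, ∀ y ∈ A, x \ y ∈ A) {e : B} (he : e ∈ A)
    (G : Finset B) (hG : (G : Set B) ⊆ A) : e \ G.sup id ∈ A := by
  classical
  induction G using Finset.induction_on with
  | empty => rwa [Finset.sup_empty, sdiff_bot]
  | insert x G hx ih =>
    rw [Finset.coe_insert, Set.insert_subset_iff] at hG
    rw [Finset.sup_insert, id, sup_comm, ← sdiff_sdiff_left]
    exact hsd _ (ih hG.2) _ hG.1

open Classical in
/-- adding a splitting element -/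
theorem ind_insert {P A : Set B} (hinf : ∀ x ∈ A, ∀ y ∈ A, x ⊓ y ∈ A)
    (hsd : ∀ x ∈ A, ∀ y ∈ A, x \ y ∈ A) {e : B} (he : e ∈ A) {X : Set B} (hXA : X ⊆ A)
    (hX : Ind P e X) {a : B}
    (hsplit : ∀ x ∈ A, x ≤ e → x ∉ P → x ⊓ a ∉ P ∧ x \ a ∉ P) : Ind P e (insert (e ⊓ a) X) := by
  refine ⟨Set.insert_subset_iff.2 ⟨inf_le_left, hX.1⟩, fun F G hF hG hFG => ?_⟩
  have hF' : ((F.erase (e ⊓ a) : Finset B) : Set B) ⊆ X := by
    intro x hx
    rw [Finset.coe_erase] at hx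
    rcases hF hx.1 with h | h
    · exact absurd h hx.2
    · exact h
  have hG' : ((G.erase (e ⊓ a) : Finset B) : Set B) ⊆ X := by
    intro x hx
    rw [Finset.coe_erase] at hx
    rcases hG hx.1 with h | h
    · exact absurd h hx.2
    · exact h
  have hd : Disjoint (F.erase (e ⊓ a)) (G.erase (e ⊓ a)) :=
    hFG.mono (Finset.erase_subset _ _) (Finset.erase_subset _ _)
  have hp := hX.2 _ _ hF' hG' hd
  have hpA : (e ⊓ (F.erase (e ⊓ a)).inf id) \ (G.erase (e ⊓ a)).sup id ∈ A :=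
    sdiff_mem_of_closed hsd (inf_mem_of_closed hinf he _ (hF'.trans hXA)) _ (hG'.trans hXA)
  have hpe : (e ⊓ (F.erase (e ⊓ a)).inf id) \ (G.erase (e ⊓ a)).sup id ≤ e :=
    sdiff_le.trans inf_le_left
  obtain ⟨h1, h2⟩ := hsplit _ hpA hpe hp
  by_cases haF : e ⊓ a ∈ F
  · have haG : e ⊓ a ∉ G := Finset.disjoint_left.1 hFG haF
    rw [Finset.erase_eq_of_notMem haG] at h1
    have h3 : e ⊓ F.inf id = (e ⊓ (F.erase (e ⊓ a)).inf id) ⊓ a := by
      conv_lhs => rw [← Finset.insert_erase haF, Finset.inf_insert, id]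
      rw [inf_comm e a, inf_assoc, inf_left_comm e a, ← inf_assoc e e, inf_idem, inf_comm a]
    rw [h3, ← sdiff_inf_right_comm]
    exact h1
  · by_cases haG : e ⊓ a ∈ G
    · rw [Finset.erase_eq_of_notMem haF] at h2 hpe
      have h3 : G.sup id = (G.erase (e ⊓ a)).sup id ⊔ (e ⊓ a) := by
        conv_lhs => rw [← Finset.insert_erase haG, Finset.sup_insert, id, sup_comm]
      rw [h3, ← sdiff_sdiff_left, sdiff_inf, sdiff_eq_bot_iff.2 hpe, bot_sup_eq]
      exact h2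
    · rw [Finset.erase_eq_of_notMem haF, Finset.erase_eq_of_notMem haG] at hp
      exact hp

omit [BooleanAlgebra B] in
theorem mk_finset_lt {ν : Cardinal.{u}} (hν : ℵ₀ ≤ ν) {s : Set B} (hs : s.Finite) : #s < ν :=
  (Cardinal.lt_aleph0_iff_set_finite.2 hs).trans_le hν

open Classical in
/-- few disjoint elements outside of a small ideal and few independent elements: few elements -/
theorem mk_iic_le_of_few (hν : ν.IsRegular) (hνm : ν ≤ m) (hm : ∀ τ < ν, m ^ τ ≤ m) {P : Set B}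
    (hP : IsIdl P) (b : B) (hPb : #{x : B | x ∈ P ∧ x ≤ b} ≤ m)
    (hind : ∀ e ≤ b, ∀ X, Ind P e X → #X ≤ m)
    (hfam : ∀ D : Set B, D ⊆ Iic b → (∀ d ∈ D, d ∉ P) → D.PairwiseDisjoint id → #D < ν) :
    #(Iic b) ≤ m := by
  have hωm : ℵ₀ ≤ m := hν.aleph0_le.trans hνm
  by_contra hbig
  push Not at hbig
  -- the choices
  let ch1 : Set B → B := fun D =>
    if h : ∃ e, e ≤ b ∧ e ∉ P ∧ ∀ d ∈ D, Disjoint e d then h.choose else ⊥
  let ch2 : Set B → Set B → B := fun D D' =>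
    if h : ∃ a, a ≤ b ∧ (∀ d ∈ D', d ≤ a) ∧ ∀ d ∈ D, d ∉ D' → Disjoint d a then h.choose else ⊥
  let ch3 : B → Set B := fun e =>
    if h : e ≤ b ∧ e ∉ P then (exists_max_ind h.2).choose else ∅
  let Φ : Set B → Set B := fun D => {ch1 D} ∪ ((ch2 D) '' (𝒫 D)) ∪ (⋃ e : D, ch3 e) ∪
    (Set.image2 (fun x y => x ⊓ y) D D ∪ Set.image2 (fun x y => x ⊔ y) D D ∪
      Set.image2 (fun x y => x \ y) D D)
  have hch3 : ∀ e, #(ch3 e) ≤ m := by
    intro e
    by_cases h : e ≤ b ∧ e ∉ P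
    · simp only [ch3, h, dite_true, not_false_eq_true, and_self]
      exact hind e h.1 _ (exists_max_ind h.2).choose_spec.1
    · simp only [ch3, h, dite_false]
      rw [Cardinal.mk_eq_zero]
      exact zero_le
  have hΦ : ∀ D : Set B, #D < ν → #(Φ D) ≤ m := by
    intro D hD
    have hDm : #D ≤ m := hD.le.trans hνm
    have h1 : #({ch1 D} : Set B) ≤ m := by
      rw [Cardinal.mk_singleton]
      exact Cardinal.one_lt_aleph0.le.trans hωm
    have h2 : #((ch2 D) '' (𝒫 D) : Set B) ≤ m := by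
      refine Cardinal.mk_image_le.trans ?_
      rw [Cardinal.mk_powerset]
      exact (Cardinal.power_le_power_right ((Cardinal.natCast_le_aleph0 (n := 2)).trans hωm)).trans
        (hm _ hD)
    have h3 : #(⋃ e : D, ch3 e : Set B) ≤ m := by
      refine Cardinal.mk_iUnion_le_sum_mk.trans ?_
      refine (Cardinal.sum_le_sum _ _ fun e : D => hch3 e).trans ?_
      rw [Cardinal.sum_const']
      exact (mul_le_mul' hDm le_rfl).trans (Cardinal.mul_eq_self hωm).le
    have h4 : ∀ f : B → B → B, #(Set.image2 f D D : Set B) ≤ m := fun f =>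
      Cardinal.mk_image2_le.trans ((mul_le_mul' hDm hDm).trans (Cardinal.mul_eq_self hωm).le)
    have hadd : ∀ S T : Set B, #S ≤ m → #T ≤ m → #(S ∪ T : Set B) ≤ m := fun S T hS hT =>
      (Cardinal.mk_union_le _ _).trans ((add_le_add hS hT).trans (Cardinal.add_eq_self hωm).le)
    exact hadd _ _ (hadd _ _ (hadd _ _ h1 h2) h3) (hadd _ _ (hadd _ _ (h4 _) (h4 _)) (h4 _))
  have hX0 : #({x : B | x ∈ P ∧ x ≤ b} ∪ {b} : Set B) ≤ m := by
    refine (Cardinal.mk_union_le _ _).trans ?_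
    rw [Cardinal.mk_singleton]
    exact (add_le_add hPb (Cardinal.one_lt_aleph0.le.trans hωm)).trans
      (Cardinal.add_eq_self hωm).le
  obtain ⟨A, hXA, hAm, hAc⟩ := exists_closed hν hνm hm Φ hΦ hX0
  have hPA : ∀ x ∈ P, x ≤ b → x ∈ A := fun x hx hxb => hXA (Or.inl ⟨hx, hxb⟩)
  have hfin2 : ∀ x y : B, #({x, y} : Set B) < ν := fun x y =>
    mk_finset_lt hν.aleph0_le (Set.toFinite _)
  have hpair : ∀ x ∈ A, ∀ y ∈ A, ({x, y} : Set B) ⊆ A := fun x hx y hy => by
    rintro z (rfl | rfl)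
    · exact hx
    · exact hy
  have hinf : ∀ x ∈ A, ∀ y ∈ A, x ⊓ y ∈ A := fun x hx y hy =>
    hAc _ (hpair x hx y hy) (hfin2 x y) (Or.inr (Or.inl (Or.inl
      ⟨x, Or.inl rfl, y, Or.inr rfl, rfl⟩)))
  have hsup : ∀ x ∈ A, ∀ y ∈ A, x ⊔ y ∈ A := fun x hx y hy =>
    hAc _ (hpair x hx y hy) (hfin2 x y) (Or.inr (Or.inl (Or.inr
      ⟨x, Or.inl rfl, y, Or.inr rfl, rfl⟩)))
  have hsd : ∀ x ∈ A, ∀ y ∈ A, x \ y ∈ A := fun x hx y hy =>
    hAc _ (hpair x hx y hy) (hfin2 x y) (Or.inr (Or.inr ⟨x, Or.inl rfl, y, Or.inr rfl, rfl⟩))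
  -- an element outside
  obtain ⟨a, hab, haA⟩ : ∃ a ∈ Iic b, a ∉ A := by
    by_contra hcon
    push Not at hcon
    exact absurd ((Cardinal.mk_le_mk_of_subset hcon).trans hAm) (not_le.2 hbig)
  -- a maximal disjoint family
  let T : Set B := {x | x ∈ A ∧ x ∉ P ∧ x ≤ b ∧ (x ≤ a ∨ Disjoint x a)}
  obtain ⟨D, -, hDmax⟩ := zorn_subset_nonempty {D : Set B | D ⊆ T ∧ D.PairwiseDisjoint id}
    (fun c hc hch _ => ⟨⋃₀ c, ⟨Set.sUnion_subset fun s hs => (hc hs).1,
      (hch.pairwiseDisjoint_sUnion id).2 fun s hs => (hc hs).2⟩,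
      fun s hs => Set.subset_sUnion_of_mem hs⟩) ∅ ⟨Set.empty_subset _, Set.pairwiseDisjoint_empty⟩
  have hDT : D ⊆ T := hDmax.prop.1
  have hDd : D.PairwiseDisjoint id := hDmax.prop.2
  have hDA : D ⊆ A := fun x hx => (hDT hx).1
  have hDν : #D < ν := hfam D (fun x hx => (hDT hx).2.2.1) (fun x hx => (hDT hx).2.1) hDd
  have hDm : ∀ x ∈ T, (∀ d ∈ D, Disjoint x d) → False := by
    intro x hx hxd
    have h1 : insert x D ∈ {D : Set B | D ⊆ T ∧ D.PairwiseDisjoint id} :=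
      ⟨Set.insert_subset_iff.2 ⟨hx, hDT⟩, hDd.insert fun d hd _ => hxd d hd⟩
    have h2 : x ∈ D := hDmax.le_of_ge h1 (Set.subset_insert _ _) (Set.mem_insert _ _)
    have h3 := hxd x h2
    rw [disjoint_self] at h3
    exact hx.2.1 (h3 ▸ hP.bot)
  by_cases hcase : ∃ e, e ≤ b ∧ e ∉ P ∧ ∀ d ∈ D, Disjoint e d
  · -- a place where `a` splits everything
    have hspec : ch1 D ≤ b ∧ ch1 D ∉ P ∧ ∀ d ∈ D, Disjoint (ch1 D) d := by
      simp only [ch1, hcase, dite_true]
      exact hcase.choose_spec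
    have heA : ch1 D ∈ A := hAc D hDA hDν (Or.inl (Or.inl (Or.inl rfl)))
    set e : B := ch1 D with he
    obtain ⟨heb, heP, heD⟩ := hspec
    have hsplit : ∀ x ∈ A, x ≤ e → x ∉ P → x ⊓ a ∉ P ∧ x \ a ∉ P := by
      intro x hx hxe hxP
      constructor
      · intro h
        have h1 : x \ (x ⊓ a) ∈ A := hsd x hx _ (hPA _ h (inf_le_left.trans (hxe.trans heb)))
        rw [sdiff_inf_self_left] at h1
        refine hDm (x \ a) ⟨h1, fun h2 => hxP ?_, sdiff_le.trans (hxe.trans heb),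
          Or.inr disjoint_sdiff_self_left⟩ fun d hd => (heD d hd).mono_left (sdiff_le.trans hxe)
        have h3 := hP.sup h h2
        rwa [sup_inf_sdiff] at h3
      · intro h
        have h1 : x \ (x \ a) ∈ A := hsd x hx _ (hPA _ h (sdiff_le.trans (hxe.trans heb)))
        rw [_root_.sdiff_sdiff_right_self] at h1
        refine hDm (x ⊓ a) ⟨h1, fun h2 => hxP ?_, inf_le_left.trans (hxe.trans heb),
          Or.inl inf_le_right⟩ fun d hd => (heD d hd).mono_left (inf_le_left.trans hxe)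
        have h3 := hP.sup h2 h
        rwa [sup_inf_sdiff] at h3
    have hX3 : Ind P e (ch3 e) ∧ ∀ Y, Ind P e Y → ch3 e ⊆ Y → Y ⊆ ch3 e := by
      have h : e ≤ b ∧ e ∉ P := ⟨heb, heP⟩
      simp only [ch3, h, dite_true, not_false_eq_true, and_self]
      exact (exists_max_ind h.2).choose_spec
    have hXA3 : ch3 e ⊆ A := by
      intro x hx
      refine hAc {e} (Set.singleton_subset_iff.2 heA)
        (mk_finset_lt hν.aleph0_le (Set.finite_singleton _)) (Or.inl (Or.inr ?_))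
      exact Set.mem_iUnion.2 ⟨⟨e, rfl⟩, hx⟩
    have h1 := hX3.2 _ (ind_insert hinf hsd heA hXA3 hX3.1 hsplit) (Set.subset_insert _ _)
      (Set.mem_insert _ _)
    have h2 := (hsplit e heA le_rfl heP).1
    have h3 := (hsplit (e ⊓ a) (hXA3 h1) inf_le_left h2).2
    rw [sdiff_eq_bot_iff.2 inf_le_right] at h3
    exact h3 hP.bot
  · -- `a` is determined modulo `P`
    push Not at hcase
    let D' : Set B := {d | d ∈ D ∧ d ≤ a}
    have hex : ∃ a, a ≤ b ∧ (∀ d ∈ D', d ≤ a) ∧ ∀ d ∈ D, d ∉ D' → Disjoint d a := by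
      refine ⟨a, hab, fun d hd => hd.2, fun d hd hd' => ?_⟩
      rcases (hDT hd).2.2.2 with h | h
      · exact absurd ⟨hd, h⟩ hd'
      · exact h
    have hspec : ch2 D D' ≤ b ∧ (∀ d ∈ D', d ≤ ch2 D D') ∧
        ∀ d ∈ D, d ∉ D' → Disjoint d (ch2 D D') := by
      simp only [ch2, hex, dite_true]
      exact hex.choose_spec
    have hcA : ch2 D D' ∈ A := hAc D hDA hDν (Or.inl (Or.inl (Or.inr ⟨D', fun d hd => hd.1, rfl⟩)))
    set c : B := ch2 D D' with hc
    obtain ⟨hcb, hc1, hc2⟩ := hspec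
    have key : ∀ x y : B, x ≤ b → (∀ d ∈ D', d ≤ x) → (∀ d ∈ D', d ≤ y) →
        (∀ d ∈ D, d ∉ D' → Disjoint d x) → x \ y ∈ A := by
      intro x y hxb hx hy hx'
      have hxyb : x \ y ≤ b := sdiff_le.trans hxb
      refine hPA _ (by_contra fun hxyP => ?_) hxyb
      obtain ⟨d, hd, hdx⟩ := hcase (x \ y) hxyb hxyP
      apply hdx
      by_cases hdD : d ∈ D'
      · exact disjoint_sdiff_self_left.mono_right (hy d hdD)
      · exact ((hx' d hd hdD).symm).mono_left sdiff_le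
    have ha1 : ∀ d ∈ D', d ≤ a := fun d hd => hd.2
    have ha2 : ∀ d ∈ D, d ∉ D' → Disjoint d a := fun d hd hd' => by
      rcases (hDT hd).2.2.2 with h | h
      · exact absurd ⟨hd, h⟩ hd'
      · exact h
    have h1 : a \ c ∈ A := key a c hab ha1 hc1 ha2
    have h2 : c \ a ∈ A := key c a hcb hc1 ha1 hc2
    apply haA
    have h3 : a = (c \ (c \ a)) ⊔ (a \ c) := by
      rw [_root_.sdiff_sdiff_right_self, inf_comm, sup_inf_sdiff]
    rw [h3]
    exact hsup _ (hsd _ hcA _ h2) _ h1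

end Pool.Agent.U744.SA
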