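import Mathlib
import Pool.Agent.U744.SA.Bound

set_option autoImplicit false

/-!
Superatomic ranks inside of subrings, and sums of subrings below disjoint elements.
-/

open Cardinal Ordinal Set
open Pool.Agent.Helper372.SuperAt

universe u

namespace Pool.Agent.U744.SA

variable {B : Type u} [BooleanAlgebra B]

/-- rank at least `γ` inside of `S` -/
def RkIn (S : Set B) (γ : Ordinal.{u}) (b : B) : Prop :=
  b ≠ ⊥ ∧ ∀ δ, δ < γ → ∃ f : ℕ → B, (∀ n, f n ∈ S) ∧ (∀ n, f n ≤ b) ∧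
    (∀ m n, m < n → Disjoint (f m) (f n)) ∧ ∀ n, RkIn S δ (f n)
termination_by γ

theorem rkIn_iff (S : Set B) (γ : Ordinal.{u}) (b : B) : RkIn S γ b ↔
    b ≠ ⊥ ∧ ∀ δ, δ < γ → ∃ f : ℕ → B, (∀ n, f n ∈ S) ∧ (∀ n, f n ≤ b) ∧
    (∀ m n, m < n → Disjoint (f m) (f n)) ∧ ∀ n, RkIn S δ (f n) := by
  rw [RkIn]

variable {S T : Set B}

theorem RkIn.ne_bot {γ : Ordinal.{u}} {b : B} (h : RkIn S γ b) : b ≠ ⊥ := ((rkIn_iff S γ b).1 h).1

theorem RkIn.anti {γ δ : Ordinal.{u}} {b : B} (hδ : δ ≤ γ) (h : RkIn S γ b) : RkIn S δ b := by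
  rw [rkIn_iff] at h ⊢
  exact ⟨h.1, fun ε hε => h.2 ε (hε.trans_le hδ)⟩

theorem RkIn.mono {γ : Ordinal.{u}} {b b' : B} (hb : b ≤ b') (h : RkIn S γ b) : RkIn S γ b' := by
  rw [rkIn_iff] at h ⊢
  refine ⟨fun h0 => h.1 (le_bot_iff.1 (h0 ▸ hb)), fun δ hδ => ?_⟩
  obtain ⟨f, h0, h1, h2, h3⟩ := h.2 δ hδ
  exact ⟨f, h0, fun n => (h1 n).trans hb, h2, h3⟩

theorem rkIn_local_aux {γ : Ordinal.{u}} : ∀ {b : B}, (∀ x ≤ b, x ∈ S → x ∈ T) → RkIn S γ b →
    RkIn T γ b := by
  induction γ using WellFoundedLT.induction with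
  | _ γ ih =>
    intro b hb h
    rw [rkIn_iff] at h ⊢
    refine ⟨h.1, fun δ hδ => ?_⟩
    obtain ⟨f, h0, h1, h2, h3⟩ := h.2 δ hδ
    exact ⟨f, fun n => hb _ (h1 n) (h0 n), h1, h2, fun n =>
      ih δ hδ (fun x hx => hb x (hx.trans (h1 n))) (h3 n)⟩

theorem rkIn_local {γ : Ordinal.{u}} {b : B} (hb : ∀ x ≤ b, (x ∈ S ↔ x ∈ T)) :
    RkIn S γ b ↔ RkIn T γ b :=
  ⟨rkIn_local_aux fun x hx => (hb x hx).1, rkIn_local_aux fun x hx => (hb x hx).2⟩

theorem rkGe_iff_rkIn (A : BooleanSubalgebra B) {γ : Ordinal.{u}} :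
    ∀ a : A, RkGe γ a ↔ RkIn (A : Set B) γ (a : B) := by
  induction γ using WellFoundedLT.induction with
  | _ γ ih =>
    intro a
    rw [rkGe_iff, rkIn_iff]
    have h0 : a ≠ ⊥ ↔ (a : B) ≠ ⊥ := by
      rw [not_iff_not]
      constructor
      · rintro rfl; rfl
      · intro h; exact Subtype.ext h
    rw [h0]
    refine and_congr_right fun _ => forall_congr' fun δ => forall_congr' fun hδ => ?_
    constructor
    · rintro ⟨f, h1, h2, h3⟩
      refine ⟨fun n => (f n : B), fun n => (f n).2, fun n => h1 n, fun m n hmn => ?_, fun n => ?_⟩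
      · have := h2 m n hmn
        rw [disjoint_iff] at this ⊢
        exact congrArg Subtype.val this
      · exact (ih δ hδ (f n)).1 (h3 n)
    · rintro ⟨f, h0, h1, h2, h3⟩
      refine ⟨fun n => ⟨f n, h0 n⟩, fun n => h1 n, fun m n hmn => ?_, fun n => ?_⟩
      · have := h2 m n hmn
        rw [disjoint_iff] at this ⊢
        exact Subtype.ext this
      · exact (ih δ hδ ⟨f n, h0 n⟩).2 (h3 n)

/-- `S` is a subring with largest element `d` -/
structure SubR (d : B) (S : Set B) : Prop where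
  bot : ⊥ ∈ S
  top : d ∈ S
  le : ∀ x ∈ S, x ≤ d
  sup : ∀ x ∈ S, ∀ y ∈ S, x ⊔ y ∈ S
  inf : ∀ x ∈ S, ∀ y ∈ S, x ⊓ y ∈ S
  compl : ∀ x ∈ S, d \ x ∈ S

theorem RkIn.of_sup (hinf : ∀ x ∈ S, ∀ y ∈ S, x ⊓ y ∈ S) {γ : Ordinal.{u}} :
    ∀ {a b : B}, a ∈ S → b ∈ S → RkIn S γ (a ⊔ b) → RkIn S γ a ∨ RkIn S γ b := by
  induction γ using WellFoundedLT.induction with
  | _ γ ih =>
    intro a b haS hbS h
    by_contra hcon
    push Not at hcon
    obtain ⟨ha, hb⟩ := hcon
    have h' := h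
    rw [rkIn_iff] at h
    by_cases ha0 : a = ⊥
    · subst ha0
      rw [bot_sup_eq] at h'
      exact hb h'
    by_cases hb0 : b = ⊥
    · subst hb0
      rw [sup_bot_eq] at h'
      exact ha h'
    rw [rkIn_iff] at ha hb
    simp only [ne_eq, ha0, hb0, not_false_eq_true, true_and] at ha hb
    push Not at ha hb
    obtain ⟨δ, hδ, hA⟩ := ha
    obtain ⟨ε, hε, hB⟩ := hb
    have hm : max δ ε < γ := max_lt hδ hε
    obtain ⟨f, h0, h1, h2, h3⟩ := h.2 _ hm
    have key : ∀ n, RkIn S (max δ ε) (f n ⊓ a) ∨ RkIn S (max δ ε) (f n ⊓ b) := by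
      intro n
      apply ih _ hm (hinf _ (h0 n) _ haS) (hinf _ (h0 n) _ hbS)
      rw [← inf_sup_left, inf_eq_left.2 (h1 n)]
      exact h3 n
    rcases exists_subseq _ _ key with ⟨g, hg, hgP⟩ | ⟨g, hg, hgP⟩
    · obtain ⟨n, hn⟩ := hA (fun n => f (g n) ⊓ a) (fun n => hinf _ (h0 _) _ haS)
        (fun n => inf_le_right) (fun m n hmn => (h2 _ _ (hg hmn)).mono inf_le_left inf_le_left)
      exact hn ((hgP n).anti (le_max_left _ _))
    · obtain ⟨n, hn⟩ := hB (fun n => f (g n) ⊓ b) (fun n => hinf _ (h0 _) _ hbS)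
        (fun n => inf_le_right) (fun m n hmn => (h2 _ _ (hg hmn)).mono inf_le_left inf_le_left)
      exact hn ((hgP n).anti (le_max_right _ _))

theorem RkIn.of_finset_sup {d : B} (hS : SubR d S) {ι : Type u} {g : ι → B} (hg : ∀ i, g i ∈ S)
    {γ : Ordinal.{u}} (s : Finset ι) (h : RkIn S γ (s.sup g)) : ∃ i ∈ s, RkIn S γ (g i) := by
  classical
  have hmem : ∀ s : Finset ι, s.sup g ∈ S := by
    intro s
    induction s using Finset.induction_on with
    | empty => rw [Finset.sup_empty]; exact hS.bot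
    | insert a s ha ih => rw [Finset.sup_insert]; exact hS.sup _ (hg a) _ ih
  induction s using Finset.induction_on with
  | empty =>
    rw [Finset.sup_empty] at h
    exact absurd rfl h.ne_bot
  | insert a s ha ih =>
    rw [Finset.sup_insert] at h
    rcases h.of_sup hS.inf (hg a) (hmem s) with h | h
    · exact ⟨a, Finset.mem_insert_self _ _, h⟩
    · obtain ⟨i, hi, hi'⟩ := ih h
      exact ⟨i, Finset.mem_insert_of_mem hi, hi'⟩

/-- the subalgebra of all elements with trace in `S` -/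
def ext {d : B} (hS : SubR d S) : BooleanSubalgebra B where
  carrier := {x | x ⊓ d ∈ S}
  supClosed' := by
    rintro x hx y hy
    change (x ⊔ y) ⊓ d ∈ S
    rw [inf_sup_right]
    exact hS.sup _ hx _ hy
  infClosed' := by
    rintro x hx y hy
    change (x ⊓ y) ⊓ d ∈ S
    rw [inf_inf_distrib_right]
    exact hS.inf _ hx _ hy
  compl_mem' := by
    rintro x hx
    change xᶜ ⊓ d ∈ S
    have h := hS.compl _ hx
    rwa [sdiff_inf_self_right, _root_.sdiff_eq, inf_comm] at h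
  bot_mem' := by
    change (⊥ : B) ⊓ d ∈ S
    rw [bot_inf_eq]
    exact hS.bot

theorem mem_ext {d : B} {hS : SubR d S} {x : B} : x ∈ ext hS ↔ x ⊓ d ∈ S := Iff.rfl

theorem mem_ext_of_le {d : B} {hS : SubR d S} {x : B} (hx : x ≤ d) : x ∈ ext hS ↔ x ∈ S := by
  rw [mem_ext, inf_eq_left.2 hx]

section Sum

variable {ι : Type u} {b : B} {d : ι → B} {R : ι → Set B}

/-- the sum of the subrings `R i` below the disjoint elements `d i` below `b` -/
def DS (b : B) (d : ι → B) (R : ι → Set B) : Set B :=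
  {x | x ≤ b ∧ (∀ i, x ⊓ d i ∈ R i) ∧ ∃ s : Finset ι, x ≤ s.sup d ∨ b \ x ≤ s.sup d}

open Classical in
theorem subR_DS (hd : ∀ i, d i ≤ b) (hR : ∀ i, SubR (d i) (R i)) : SubR b (DS b d R) where
  bot := ⟨bot_le, fun i => by rw [bot_inf_eq]; exact (hR i).bot, ∅, Or.inl bot_le⟩
  top := ⟨le_rfl, fun i => by rw [inf_eq_right.2 (hd i)]; exact (hR i).top, ∅,
    Or.inr (by rw [_root_.sdiff_self]; exact bot_le)⟩
  le := fun x hx => hx.1
  sup := by
    rintro x ⟨hx1, hx2, s, hx3⟩ y ⟨hy1, hy2, t, hy3⟩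
    refine ⟨sup_le hx1 hy1, fun i => ?_, s ∪ t, ?_⟩
    · rw [inf_sup_right]
      exact (hR i).sup _ (hx2 i) _ (hy2 i)
    · rw [Finset.sup_union]
      rcases hx3 with hx3 | hx3
      · rcases hy3 with hy3 | hy3
        · exact Or.inl (sup_le_sup hx3 hy3)
        · exact Or.inr ((sdiff_le_sdiff_left le_sup_right).trans (hy3.trans le_sup_right))
      · exact Or.inr ((sdiff_le_sdiff_left le_sup_left).trans (hx3.trans le_sup_left))
  inf := by
    rintro x ⟨hx1, hx2, s, hx3⟩ y ⟨hy1, hy2, t, hy3⟩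
    refine ⟨inf_le_left.trans hx1, fun i => ?_, s ∪ t, ?_⟩
    · rw [inf_inf_distrib_right]
      exact (hR i).inf _ (hx2 i) _ (hy2 i)
    · rw [Finset.sup_union]
      rcases hx3 with hx3 | hx3
      · exact Or.inl (inf_le_left.trans (hx3.trans le_sup_left))
      · rcases hy3 with hy3 | hy3
        · exact Or.inl (inf_le_right.trans (hy3.trans le_sup_right))
        · refine Or.inr ?_
          rw [sdiff_inf]
          exact sup_le_sup hx3 hy3
  compl := by
    rintro x ⟨hx1, hx2, s, hx3⟩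
    refine ⟨sdiff_le, fun i => ?_, s, ?_⟩
    · have h := (hR i).compl _ (hx2 i)
      rw [sdiff_inf_self_right] at h
      rwa [sdiff_inf_right_comm, inf_eq_right.2 (hd i)]
    · rcases hx3 with hx3 | hx3
      · refine Or.inr ?_
        rw [_root_.sdiff_sdiff_right_self]
        exact inf_le_right.trans hx3
      · exact Or.inl hx3

theorem mem_DS_of_le (hd : ∀ i, d i ≤ b) (hdd : ∀ i j, i ≠ j → Disjoint (d i) (d j))
    (hR : ∀ i, SubR (d i) (R i)) {i : ι} {x : B} (hx : x ≤ d i) : x ∈ DS b d R ↔ x ∈ R i := by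
  constructor
  · rintro ⟨-, h2, -⟩
    have := h2 i
    rwa [inf_eq_left.2 hx] at this
  · intro h
    refine ⟨hx.trans (hd i), fun j => ?_, {i}, Or.inl ?_⟩
    · by_cases hij : i = j
      · subst hij
        rwa [inf_eq_left.2 hx]
      · rw [((hdd i j hij).mono_left hx).eq_bot]
        exact (hR j).bot
    · rwa [Finset.sup_singleton]

theorem rkIn_DS_iff (hd : ∀ i, d i ≤ b) (hdd : ∀ i j, i ≠ j → Disjoint (d i) (d j))
    (hR : ∀ i, SubR (d i) (R i)) {i : ι} {x : B} (hx : x ≤ d i) {γ : Ordinal.{u}} :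
    RkIn (DS b d R) γ x ↔ RkIn (R i) γ x :=
  rkIn_local fun _ hy => mem_DS_of_le hd hdd hR (hy.trans hx)

open Classical in
theorem mk_DS_le {ν : Cardinal.{u}} (hν : ℵ₀ ≤ ν) (hι : #ι ≤ ν) (hRc : ∀ i, #(R i) ≤ ν)
    (hd : ∀ i, d i ≤ b) (hR : ∀ i, SubR (d i) (R i)) : #(DS b d R) ≤ ν := by
  have h1 : #(⋃ i, R i : Set B) ≤ ν := by
    refine Cardinal.mk_iUnion_le_sum_mk.trans ?_
    refine (Cardinal.sum_le_sum _ _ hRc).trans ?_
    rw [Cardinal.sum_const']
    exact (mul_le_mul' hι le_rfl).trans (Cardinal.mul_eq_self hν).le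
  let W : Set B := Set.range fun t : Finset (⋃ i, R i : Set B) => t.sup (fun y => (y : B))
  have hW : #W ≤ ν := Cardinal.mk_range_le.trans ((mk_finset_le _).trans (max_le h1 hν))
  have hfin : ∀ x, (∀ i, x ⊓ d i ∈ R i) → (∃ s : Finset ι, x ≤ s.sup d) → x ∈ W := by
    rintro x hx ⟨s, hs⟩
    refine ⟨s.image fun i => ⟨x ⊓ d i, Set.mem_iUnion.2 ⟨i, hx i⟩⟩, ?_⟩
    change Finset.sup _ _ = x
    rw [Finset.sup_image]
    change (s.sup fun i => x ⊓ d i) = x
    rw [← Finset.sup_inf_distrib_left, inf_eq_left.2 hs]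
  have h2 : DS b d R ⊆ W ∪ (fun x => b \ x) '' W := by
    rintro x hx
    have hx' := (subR_DS hd hR).compl x hx
    obtain ⟨hx1, hx2, s, hx3 | hx3⟩ := hx
    · exact Or.inl (hfin x hx2 ⟨s, hx3⟩)
    · refine Or.inr ⟨b \ x, hfin _ hx'.2.1 ⟨s, hx3⟩, ?_⟩
      change b \ (b \ x) = x
      rw [_root_.sdiff_sdiff_right_self, inf_eq_right.2 hx1]
  refine (Cardinal.mk_le_mk_of_subset h2).trans ((Cardinal.mk_union_le _ _).trans ?_)
  exact (add_le_add hW (Cardinal.mk_image_le.trans hW)).trans (Cardinal.add_eq_self hν).le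

/-- ranks of the sum, lower bound -/
theorem rkIn_DS (hb : b ≠ ⊥) (hd : ∀ i, d i ≤ b) (hdd : ∀ i j, i ≠ j → Disjoint (d i) (d j))
    (hR : ∀ i, SubR (d i) (R i)) {γ : Ordinal.{u}}
    (h : ∀ δ < γ, ∃ g : ℕ → ι, Function.Injective g ∧ ∀ n, RkIn (R (g n)) δ (d (g n))) :
    RkIn (DS b d R) γ b := by
  rw [rkIn_iff]
  refine ⟨hb, fun δ hδ => ?_⟩
  obtain ⟨g, hg, hgr⟩ := h δ hδ
  refine ⟨fun n => d (g n), fun n => ?_, fun n => hd _, fun m n hmn => hdd _ _ fun h => ?_,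
    fun n => ?_⟩
  · exact (mem_DS_of_le hd hdd hR le_rfl).2 (hR _).top
  · exact hmn.ne (hg h)
  · exact (rkIn_DS_iff hd hdd hR le_rfl).2 (hgr n)

/-- ranks of the sum, upper bound -/
theorem not_rkIn_DS (hd : ∀ i, d i ≤ b) (hdd : ∀ i j, i ≠ j → Disjoint (d i) (d j))
    (hR : ∀ i, SubR (d i) (R i)) {γ : Ordinal.{u}} (h : ∀ i, ¬ RkIn (R i) γ (d i)) :
    ¬ RkIn (DS b d R) (Order.succ γ) b := by
  intro hcon
  rw [rkIn_iff] at hcon
  obtain ⟨f, h0, h1, h2, h3⟩ := hcon.2 γ (Order.lt_succ γ)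
  have key : ∀ x ∈ DS b d R, (∃ s : Finset ι, x ≤ s.sup d) → ¬ RkIn (DS b d R) γ x := by
    rintro x hx ⟨s, hs⟩ hr
    have h4 : x = s.sup fun i => x ⊓ d i := by
      rw [← Finset.sup_inf_distrib_left, inf_eq_left.2 hs]
    have h5 : ∀ i, x ⊓ d i ∈ DS b d R := fun i =>
      (mem_DS_of_le hd hdd hR inf_le_right).2 (hx.2.1 i)
    rw [h4] at hr
    obtain ⟨i, -, hi⟩ := hr.of_finset_sup (subR_DS hd hR) h5
    have h6 : RkIn (DS b d R) γ (d i) := hi.mono inf_le_right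
    exact h i ((rkIn_DS_iff hd hdd hR le_rfl).1 h6)
  obtain ⟨-, -, s, hs | hs⟩ := h0 0
  · exact key _ (h0 0) ⟨s, hs⟩ (h3 0)
  · refine key _ (h0 1) ⟨s, le_trans ?_ hs⟩ (h3 1)
    rw [le_sdiff]
    exact ⟨h1 1, (h2 0 1 Nat.zero_lt_one).symm⟩

end Sum

/-- the two element subring -/
theorem subR_pair (b : B) : SubR b ({⊥, b} : Set B) where
  bot := Or.inl rfl
  top := Or.inr rfl
  le := by rintro x (rfl | rfl); exacts [bot_le, le_rfl]
  sup := by
    rintro x (rfl | rfl) y (rfl | rfl) <;> simp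
  inf := by
    rintro x (rfl | rfl) y (rfl | rfl) <;> simp
  compl := by
    rintro x (rfl | rfl) <;> simp

theorem not_rkIn_pair (b : B) : ¬ RkIn ({⊥, b} : Set B) 1 b := by
  intro h
  rw [rkIn_iff] at h
  obtain ⟨f, h0, h1, h2, h3⟩ := h.2 0 zero_lt_one
  have key : ∀ n, f n = b := by
    intro n
    rcases h0 n with h4 | h4
    · exact absurd h4 (h3 n).ne_bot
    · exact h4
  have h4 := h2 0 1 Nat.zero_lt_one
  rw [key 0, key 1, disjoint_self] at h4
  exact h.1 h4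

/-- superatomic subrings of every rank below elements with hereditarily large disjoint families -/
theorem exists_rank {ν : Cardinal.{u}} (hν : ℵ₀ ≤ ν) {ι : Type u} (hι : #ι = ν) (Big : B → Prop)
    (hbot : ¬ Big ⊥) (hfam : ∀ b, Big b → ∃ d : ι → B, (∀ i, Big (d i)) ∧ (∀ i, d i ≤ b) ∧
      ∀ i j, i ≠ j → Disjoint (d i) (d j)) (γ : Ordinal.{u}) : γ < (Order.succ ν).ord →
    ∀ b, Big b → ∃ S : Set B, SubR b S ∧ #S ≤ ν ∧ RkIn S γ b ∧ ¬ RkIn S (Order.succ γ) b := by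
  induction γ using WellFoundedLT.induction with
  | _ γ ih =>
    intro hγ b hb
    have hb0 : b ≠ ⊥ := fun h => hbot (h ▸ hb)
    by_cases hγ0 : γ = 0
    · subst hγ0
      refine ⟨{⊥, b}, subR_pair b, ?_, ?_, ?_⟩
      · exact (Cardinal.lt_aleph0_iff_set_finite.2 (Set.toFinite _)).le.trans hν
      · rw [rkIn_iff]
        exact ⟨hb0, fun δ hδ => absurd hδ (not_lt.2 zero_le)⟩
      · have h01 : Order.succ (0 : Ordinal.{u}) = 1 := by simp
        rw [h01]
        exact not_rkIn_pair b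
    · -- enumerate the smaller ordinals infinitely often
      have hγc : γ.card ≤ ν := by
        have := Cardinal.lt_ord.1 hγ
        exact Order.lt_succ_iff.1 this
      have hne : Nonempty γ.ToType := by
        rw [Ordinal.nonempty_toType_iff]
        exact hγ0
      have hcard : #(γ.ToType × ℕ) ≤ #ι := by
        rw [Cardinal.mk_prod, Cardinal.lift_uzero, Cardinal.mk_toType, Cardinal.mk_nat,
          Cardinal.lift_aleph0, hι]
        exact (mul_le_mul' hγc hν).trans (Cardinal.mul_eq_self hν).le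
      obtain ⟨e⟩ := hcard
      let g : ι → γ.ToType × ℕ := Function.invFun e
      have hg : ∀ p, g (e p) = p := Function.leftInverse_invFun e.injective
      let δ : ι → Ordinal.{u} := fun i => Ordinal.typein (α := γ.ToType) (· < ·) (g i).1
      have hδ : ∀ i, δ i < γ := fun i => Ordinal.typein_lt_self _
      obtain ⟨d, hdB, hdb, hdd⟩ := hfam b hb
      choose R hR hRc hR1 hR2 using fun i : ι => ih (δ i) (hδ i) ((hδ i).trans hγ) (d i) (hdB i)
      refine ⟨DS b d R, subR_DS hdb hR, mk_DS_le hν hι.le hRc hdb hR, ?_, ?_⟩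
      · refine rkIn_DS hb0 hdb hdd hR fun ε hε => ?_
        have hε' : ε < Ordinal.type ((· < ·) : γ.ToType → γ.ToType → Prop) := by
          rwa [Ordinal.type_toType]
        refine ⟨fun n => e (Ordinal.enum (· < ·) ⟨ε, hε'⟩, n), fun m n hmn => ?_, fun n => ?_⟩
        · exact congrArg Prod.snd (e.injective hmn)
        · have h1 : δ (e (Ordinal.enum (· < ·) ⟨ε, hε'⟩, n)) = ε := by
            change Ordinal.typein (α := γ.ToType) (· < ·) (g (e _)).1 = ε
            rw [hg, Ordinal.typein_enum]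
          have h2 := hR1 (e (Ordinal.enum (· < ·) ⟨ε, hε'⟩, n))
          rwa [h1] at h2
      · refine not_rkIn_DS hdb hdd hR fun i h => ?_
        exact hR2 i (h.anti (Order.succ_le_of_lt (hδ i)))

/-- superatomic elements with few elements below have small rank -/
theorem exists_rank_bound {ν : Cardinal.{u}} (hν : ℵ₀ ≤ ν) {q : B} (hq : #(Iic q) ≤ ν)
    (hsc : Sc q) : ∃ γ < (Order.succ ν).ord, ¬ RkGe γ q := by
  classical
  by_contra hcon
  push Not at hcon
  have hreg : (Order.succ ν).IsRegular := Cardinal.isRegular_succ hν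
  have hpos : (0 : Ordinal.{u}) < (Order.succ ν).ord := by
    rw [Cardinal.ord_pos]
    exact hreg.pos
  let g : Iic q → Ordinal.{u} := fun x =>
    if h : ∃ γ < (Order.succ ν).ord, ¬ RkGe γ (x : B) then h.choose else 0
  have hg : ∀ x, g x < (Order.succ ν).ord := by
    intro x
    by_cases h : ∃ γ < (Order.succ ν).ord, ¬ RkGe γ (x : B)
    · simp only [g, h, dite_true]
      exact h.choose_spec.1
    · simp only [g, h, dite_false]
      exact hpos
  have hsup : iSup g < (Order.succ ν).ord := by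
    refine Ordinal.iSup_lt_of_lt_cof ?_ hg
    rw [hreg.cof_ord]
    exact hq.trans_lt (Order.lt_succ ν)
  set γ₀ : Ordinal.{u} := iSup g with hγ₀
  have hlim : Order.succ γ₀ < (Order.succ ν).ord :=
    (Cardinal.isSuccLimit_ord hreg.aleph0_le).succ_lt hsup
  have h1 : ∀ x ≤ q, RkGe γ₀ x → ∀ γ < (Order.succ ν).ord, RkGe γ x := by
    intro x hx hr
    by_contra hcon2
    push Not at hcon2
    have h2 : g ⟨x, hx⟩ = hcon2.choose := by
      simp only [g, hcon2, dite_true]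
    have h3 : ¬ RkGe (g ⟨x, hx⟩) x := by
      rw [h2]
      exact hcon2.choose_spec.2
    exact h3 (hr.anti (Ordinal.le_iSup g ⟨x, hx⟩))
  have h2 : ∀ γ : Ordinal.{u}, ∀ x ≤ q, RkGe γ₀ x → RkGe γ x := by
    intro γ
    induction γ using WellFoundedLT.induction with
    | _ γ ih =>
      intro x hx hr
      rw [rkGe_iff]
      refine ⟨hr.ne_bot, fun δ hδ => ?_⟩
      have h3 := h1 x hx hr _ hlim
      rw [rkGe_iff] at h3
      obtain ⟨f, f1, f2, f3⟩ := h3.2 γ₀ (Order.lt_succ _)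
      exact ⟨f, f1, f2, fun n => ih δ hδ (f n) ((f1 n).trans hx) (f3 n)⟩
  obtain ⟨γ, hγ⟩ := hsc
  exact hγ (h2 γ q le_rfl (hcon _ hsup))

end Pool.Agent.U744.SA
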