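import Mathlib
import Pool.Agent.U744.SA.Bound

set_option autoImplicit false

/-!
Boolean algebras isomorphic to all their subalgebras of full size: the case where the small elements
have unboundedly many elements below them; generators of ideals.
-/

open Cardinal Set
open Pool.Agent.Helper372.SuperAt
open Pool.Agent.Y586.SA

universe u

namespace Pool.Agent.U744.SA

variable {B : Type u} [BooleanAlgebra B] {κ ν : Cardinal.{u}}

/-- `K` has a cofinal subset of size at most `ν` -/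
def Gen (ν : Cardinal.{u}) (K : Set B) : Prop := ∃ G ⊆ K, #G ≤ ν ∧ ∀ x ∈ K, ∃ g ∈ G, x ≤ g

theorem gen_of_gen_ideal (hω : ℵ₀ ≤ κ) (hB : #B = κ) (hstar : Star κ B) {K : Set B}
    (hK : IsIdl K) (hKs : K ⊆ Sm κ B) (hcard : #K = κ) (h : Gen ν K) : Gen ν (Sm κ B) := by
  obtain ⟨φ, hφ⟩ := exists_iso hω hB hstar hK hKs hcard
  obtain ⟨G, hG, hGc, hGx⟩ := h
  let e : G → B := fun g => φ ⟨(g : B), mem_sub_of_mem (hG g.2)⟩
  refine ⟨Set.range e, ?_, Cardinal.mk_range_le.trans hGc, ?_⟩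
  · rintro _ ⟨g, rfl⟩
    exact (hφ _).2 (hG g.2)
  · intro y hy
    have h1 : ((φ.symm y : sub K hK ⊤) : B) ∈ K := by
      rw [← hφ, φ.apply_symm_apply]
      exact hy
    obtain ⟨g, hg, hle⟩ := hGx _ h1
    refine ⟨e ⟨g, hg⟩, ⟨⟨g, hg⟩, rfl⟩, ?_⟩
    rw [← φ.apply_symm_apply y]
    exact φ.monotone hle

theorem gen_ideal_of_gen (hω : ℵ₀ ≤ κ) (hB : #B = κ) (hstar : Star κ B) {K : Set B}
    (hK : IsIdl K) (hKs : K ⊆ Sm κ B) (hcard : #K = κ) (h : Gen ν (Sm κ B)) : Gen ν K := by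
  obtain ⟨φ, hφ⟩ := exists_iso hω hB hstar hK hKs hcard
  obtain ⟨G, hG, hGc, hGx⟩ := h
  let e : G → B := fun g => ((φ.symm (g : B) : sub K hK ⊤) : B)
  refine ⟨Set.range e, ?_, Cardinal.mk_range_le.trans hGc, ?_⟩
  · rintro _ ⟨g, rfl⟩
    change ((φ.symm (g : B) : sub K hK ⊤) : B) ∈ K
    rw [← hφ, φ.apply_symm_apply]
    exact hG g.2
  · intro x hx
    have h1 : φ ⟨x, mem_sub_of_mem hx⟩ ∈ Sm κ B := (hφ _).2 hx
    obtain ⟨g, hg, hle⟩ := hGx _ h1
    refine ⟨e ⟨g, hg⟩, ⟨⟨g, hg⟩, rfl⟩, ?_⟩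
    have h2 := φ.symm.monotone hle
    rw [φ.symm_apply_apply] at h2
    exact h2

/-- in the unbounded case the ideal of the small elements has few generators -/
theorem gen_Sm (hω : ℵ₀ ≤ κ) (hB : #B = κ) (hstar : Star κ B) (hν : ℵ₀ ≤ ν)
    (hcν : κ.ord.cof ≤ ν) (hunb : ∀ θ < κ, ∃ b ∈ Sm κ B, θ < #(Iic b)) : Gen ν (Sm κ B) := by
  obtain ⟨ι, f, hι, hf1, hf2⟩ := exists_cofinal κ
  choose b hb hfb using fun i : ι => hunb (f i) (hf1 i)
  have hY : Set.range b ⊆ Sm κ B := by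
    rintro _ ⟨i, rfl⟩
    exact hb i
  have hYc : #(Set.range b) ≤ ν := Cardinal.mk_range_le.trans (hι.le.trans hcν)
  refine gen_of_gen_ideal hω hB hstar (isIdl_gen (Set.range b))
    (gen_subset (isIdl_Sm hω) hY) ?_ ?_
  · refine le_antisymm (hB ▸ Cardinal.mk_set_le _) ?_
    by_contra hlt
    push Not at hlt
    obtain ⟨i, hi⟩ := hf2 _ hlt
    have h1 : Iic (b i) ⊆ gen (Set.range b) := fun x hx =>
      (isIdl_gen _).lower hx (subset_gen ⟨i, rfl⟩)
    exact absurd (hi.trans_lt ((hfb i).trans_le (Cardinal.mk_le_mk_of_subset h1)))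
      (lt_irrefl _)
  · refine ⟨Set.range (fun s : Finset (Set.range b) => s.sup (fun y => (y : B))), ?_, ?_, ?_⟩
    · rintro _ ⟨s, rfl⟩
      exact ⟨s, le_rfl⟩
    · exact Cardinal.mk_range_le.trans ((mk_finset_le _).trans (max_le hYc hν))
    · rintro x ⟨s, hs⟩
      exact ⟨_, ⟨s, rfl⟩, hs⟩

/-- then every ideal of small elements has few generators -/
theorem gen_all (hω : ℵ₀ ≤ κ) (hB : #B = κ) (hstar : Star κ B) (htop : ¬ Sc (⊤ : B))
    (hν : ℵ₀ ≤ ν) (h : Gen ν (Sm κ B)) {P : Set B} (hP : IsIdl P) (hPs : P ⊆ Sm κ B) :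
    Gen ν P := by
  have h' := h
  obtain ⟨G, hG, hGc, hGx⟩ := h
  let L : G → Set B := fun g => {x | x ∈ Sm κ B ∧ x ⊓ g ∈ P}
  have hL : ∀ g, IsIdl (L g) := fun g => {
    bot := ⟨(isIdl_Sm hω).bot, by rw [bot_inf_eq]; exact hP.bot⟩
    lower := fun {x y} hxy hy => ⟨(isIdl_Sm hω).lower hxy hy.1,
      hP.lower (inf_le_inf_right _ hxy) hy.2⟩
    sup := fun {x y} hx hy => ⟨(isIdl_Sm hω).sup hx.1 hy.1, by
      rw [inf_sup_right]
      exact hP.sup hx.2 hy.2⟩ }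
  have hLc : ∀ g, #(L g) = κ := by
    intro g
    refine mk_eq_of_subset hB (S := {x : B | x ∈ Sm κ B ∧ x ⊓ g = ⊥}) (fun x hx => ?_)
      (mk_disj hω hB hstar htop (hG g.2))
    exact ⟨hx.1, by rw [hx.2]; exact hP.bot⟩
  choose H hH hHc hHx using fun g : G =>
    gen_ideal_of_gen hω hB hstar (hL g) (fun x hx => hx.1) (hLc g) h'
  refine ⟨⋃ g : G, (fun y => y ⊓ (g : B)) '' H g, ?_, ?_, ?_⟩
  · refine Set.iUnion_subset fun g => ?_
    rintro _ ⟨y, hy, rfl⟩
    exact (hH g hy).2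
  · refine Cardinal.mk_iUnion_le_sum_mk.trans ?_
    refine (Cardinal.sum_le_sum _ _ fun g => Cardinal.mk_image_le.trans (hHc g)).trans ?_
    rw [Cardinal.sum_const']
    exact (mul_le_mul' hGc le_rfl).trans (Cardinal.mul_eq_self hν).le
  · intro x hx
    obtain ⟨g, hg, hxg⟩ := hGx x (hPs hx)
    have h1 : x ∈ L ⟨g, hg⟩ := ⟨hPs hx, hP.lower inf_le_left hx⟩
    obtain ⟨y, hy, hxy⟩ := hHx ⟨g, hg⟩ x h1
    exact ⟨y ⊓ g, Set.mem_iUnion.2 ⟨⟨g, hg⟩, ⟨y, hy, rfl⟩⟩, le_inf hxy hxg⟩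

theorem mk_le_of_gen {μ : Cardinal.{u}} {P : Set B} (h : Gen ν P) (hμ : ∀ x ∈ P, #(Iic x) ≤ μ) :
    #P ≤ ν * μ := by
  obtain ⟨G, hG, hGc, hGx⟩ := h
  have h1 : P ⊆ ⋃ g : G, Iic (g : B) := by
    intro x hx
    obtain ⟨g, hg, hle⟩ := hGx x hx
    exact Set.mem_iUnion.2 ⟨⟨g, hg⟩, hle⟩
  refine (Cardinal.mk_le_mk_of_subset h1).trans (Cardinal.mk_iUnion_le_sum_mk.trans ?_)
  refine (Cardinal.sum_le_sum _ _ fun g : G => hμ g (hG g.2)).trans ?_
  rw [Cardinal.sum_const']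
  exact mul_le_mul' hGc le_rfl

/-- elements with at most `ν` elements below -/
theorem isIdl_le (hν : ℵ₀ ≤ ν) : IsIdl {b : B | #(Iic b) ≤ ν} where
  bot := by
    have h : Iic (⊥ : B) = {⊥} := by ext x; simp
    change #(Iic (⊥ : B)) ≤ ν
    rw [h, Cardinal.mk_singleton]
    exact Cardinal.one_lt_aleph0.le.trans hν
  lower := fun hxy hy => (Cardinal.mk_le_mk_of_subset (Iic_subset_Iic.2 hxy)).trans hy
  sup := fun {x y} hx hy => (mk_iic_sup_le x y).trans
    ((mul_le_mul' hx hy).trans (Cardinal.mul_eq_self hν).le)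

/-- elements of bounded rank -/
theorem isIdl_rk (δ : Ordinal.{u}) : IsIdl {b : B | ¬ RkGe δ b} where
  bot := fun h => h.ne_bot rfl
  lower := fun hxy hy h => hy (h.mono hxy)
  sup := fun hx hy h => by
    rcases h.of_sup with h | h
    · exact hx h
    · exact hy h

/-- superatomic elements have few elements below -/
theorem mk_iic_of_rk (hν : ℵ₀ ≤ ν) (hall : ∀ P : Set B, IsIdl P → (∀ x ∈ P, #(Iic x) ≤ ν) →
    Gen ν P) (γ : Ordinal.{u}) : ∀ x : B, ¬ RkGe γ x → #(Iic x) ≤ ν := by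
  induction γ using WellFoundedLT.induction with
  | _ γ ih =>
    intro x hx
    by_cases hx0 : x = ⊥
    · rw [hx0]
      exact (isIdl_le hν).bot
    rw [rkGe_iff] at hx
    simp only [ne_eq, hx0, not_false_eq_true, true_and] at hx
    push Not at hx
    obtain ⟨δ, hδ, hno⟩ := hx
    have hKc : #{b : B | ¬ RkGe δ b} ≤ ν := by
      have h1 := mk_le_of_gen (hall _ (isIdl_rk δ) (fun y hy => ih δ hδ y hy))
        (fun y hy => ih δ hδ y hy)
      exact h1.trans (Cardinal.mul_eq_self hν).le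
    by_contra hbig
    -- a minimal large element
    have hmin : ∃ y ≤ x, ¬ #(Iic y) ≤ ν ∧ ∀ z ≤ y, ¬ RkGe δ z ∨ ¬ RkGe δ (y \ z) := by
      by_contra hcon
      push Not at hcon
      have step : ∀ y : {y : B // y ≤ x ∧ ¬ #(Iic y) ≤ ν}, ∃ u v : B, u ≤ y.1 ∧ v ≤ y.1 ∧
          Disjoint u v ∧ RkGe δ u ∧ ¬ #(Iic v) ≤ ν := by
        rintro ⟨y, hyx, hy⟩
        obtain ⟨z, hzy, hz1, hz2⟩ := hcon y hyx (not_le.1 hy)
        by_cases hz : #(Iic z) ≤ ν
        · refine ⟨z, y \ z, hzy, sdiff_le, disjoint_sdiff_self_right, hz1, fun h => hy ?_⟩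
          have := (isIdl_le hν).sup hz h
          rwa [sup_sdiff_cancel_right hzy] at this
        · exact ⟨y \ z, z, sdiff_le, hzy, disjoint_sdiff_self_left, hz2, hz⟩
      choose u v hu hv huv hru hbv using step
      let s : ℕ → {y : B // y ≤ x ∧ ¬ #(Iic y) ≤ ν} := fun n => Nat.rec ⟨x, le_rfl, hbig⟩
        (fun _ t => ⟨v t, (hv t).trans t.2.1, hbv t⟩) n
      have hs : ∀ n, (s (n + 1)).1 = v (s n) := fun n => rfl
      have hanti : Antitone (fun n => (s n).1) := by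
        refine antitone_nat_of_succ_le fun n => ?_
        rw [hs]
        exact hv _
      refine absurd (hno (fun n => u (s n)) (fun n => (hu _).trans (s n).2.1)
        fun m n hmn => ?_) ?_
      · have h1 : u (s n) ≤ v (s m) := by
          refine (hu _).trans ?_
          have := hanti (Nat.succ_le_of_lt hmn)
          rw [← hs]
          exact this
        exact (huv (s m)).mono_right h1
      · push Not
        exact fun n => hru _
    obtain ⟨y, -, hy, hyz⟩ := hmin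
    apply hy
    have h1 : Iic y ⊆ {b : B | ¬ RkGe δ b} ∪ (fun z => y \ z) '' {b : B | ¬ RkGe δ b} := by
      intro z hz
      rcases hyz z hz with h | h
      · exact Or.inl h
      · refine Or.inr ⟨y \ z, h, ?_⟩
        change y \ (y \ z) = z
        rw [_root_.sdiff_sdiff_right_self]
        exact inf_eq_right.2 hz
    refine (Cardinal.mk_le_mk_of_subset h1).trans ((Cardinal.mk_union_le _ _).trans ?_)
    refine (add_le_add hKc (Cardinal.mk_image_le.trans hKc)).trans ?_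
    exact (Cardinal.add_eq_self hν).le

/-- the unbounded case with a small power of the cofinality -/
theorem unbounded_pow_false (hω : ℵ₀ ≤ κ) (hB : #B = κ) (hstar : Star κ B)
    (htop : ¬ Sc (⊤ : B)) (hν : ℵ₀ ≤ ν) (hcν : κ.ord.cof ≤ ν) (hpow : 2 ^ ν < κ)
    (hunb : ∀ θ < κ, ∃ b ∈ Sm κ B, θ < #(Iic b)) : False := by
  have hνκ : ν < κ := (Cardinal.cantor ν).trans hpow
  have hg := gen_Sm hω hB hstar hν hcν hunb
  have hall : ∀ P : Set B, IsIdl P → (∀ x ∈ P, #(Iic x) ≤ ν) → Gen ν P := fun P hP hPx =>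
    gen_all hω hB hstar htop hν hg hP (fun x hx => (hPx x hx).trans_lt hνκ)
  have h1 : ∀ x ∈ {b : B | Sc b}, #(Iic x) ≤ ν := by
    rintro x ⟨γ, hγ⟩
    exact mk_iic_of_rk hν hall γ x hγ
  have h2 : #{b : B | Sc b} ≤ ν :=
    (mk_le_of_gen (hall _ isIdl_sc h1) h1).trans (Cardinal.mul_eq_self hν).le
  exact htop (sc_top_of_pow hω
    ((Cardinal.power_le_power_left two_ne_zero h2).trans_lt hpow) hB hstar)

end Pool.Agent.U744.SA
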