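import Mathlib
import Pool.Agent.U744.SA.Unb
import Pool.Agent.U744.SA.Indep
import Pool.Agent.U744.SA.Rank

set_option autoImplicit false

/-!
Boolean algebras isomorphic to all their subalgebras of full size: singular cardinals.
-/

open Cardinal Ordinal Set
open Pool.Agent.Helper372.SuperAt
open Pool.Agent.Y586.SA

universe u

namespace Pool.Agent.U744.SA

variable {B : Type u} [BooleanAlgebra B] {κ ν m : Cardinal.{u}}

open Classical in
/-- independent families are not larger than the number of generators of ideals -/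
theorem mk_ind_le (hν : ℵ₀ ≤ ν) {P : Set B} (hP : IsIdl P) {e : B} {X : Set B} (hX : Ind P e X)
    (hgen : Gen ν (gen X)) : #X ≤ ν := by
  obtain ⟨G, hG, hGc, hGx⟩ := hgen
  choose s hs using fun g : G => hG g.2
  let X' : Set B := ⋃ g : G, (((s g).image (fun y : X => (y : B)) : Finset B) : Set B)
  have hX'c : #X' ≤ ν := by
    refine Cardinal.mk_iUnion_le_sum_mk.trans ?_
    refine (Cardinal.sum_le_sum _ (fun _ => ℵ₀) fun g =>
      (Cardinal.lt_aleph0_iff_set_finite.2 (Finset.finite_toSet _)).le).trans ?_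
    rw [Cardinal.sum_const']
    exact (mul_le_mul' hGc hν).trans (Cardinal.mul_eq_self hν).le
  by_contra hbig
  push Not at hbig
  obtain ⟨x, hx, hxX'⟩ : ∃ x ∈ X, x ∉ X' := by
    by_contra hcon
    push Not at hcon
    exact absurd ((Cardinal.mk_le_mk_of_subset hcon).trans hX'c) (not_le.2 hbig)
  obtain ⟨g, hg, hxg⟩ := hGx x (subset_gen hx)
  have h1 : x ≤ ((s ⟨g, hg⟩).image (fun y : X => (y : B))).sup id := by
    rw [Finset.sup_image]
    exact hxg.trans (hs ⟨g, hg⟩)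
  have h2 := hX.2 {x} ((s ⟨g, hg⟩).image (fun y : X => (y : B))) (by
    rw [Finset.coe_singleton, Set.singleton_subset_iff]
    exact hx) (by
    intro y hy
    rw [Finset.coe_image] at hy
    obtain ⟨z, -, rfl⟩ := hy
    exact z.2) (by
    rw [Finset.disjoint_singleton_left]
    intro hmem
    exact hxX' (Set.mem_iUnion.2 ⟨⟨g, hg⟩, hmem⟩))
  rw [Finset.inf_singleton, id, sdiff_eq_bot_iff.2 (inf_le_right.trans h1)] at h2
  exact h2 hP.bot

/-- disjoint families in the unbounded case -/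
theorem exists_family (hω : ℵ₀ ≤ κ) (hB : #B = κ) (hstar : Star κ B) (htop : ¬ Sc (⊤ : B))
    (hν : ν.IsRegular) (hg : Gen ν (Sm κ B)) (hνm : ν ≤ m) (hm : ∀ τ < ν, m ^ τ ≤ m) (hmκ : m < κ)
    {ι : Type u} (hι : #ι = ν) {b : B} (hb : b ∈ Sm κ B) (hbm : m < #(Iic b)) :
    ∃ d : ι → B, (∀ i, m < #(Iic (d i))) ∧ (∀ i, d i ≤ b) ∧
      ∀ i j, i ≠ j → Disjoint (d i) (d j) := by
  have hων : ℵ₀ ≤ ν := hν.aleph0_le
  have hωm : ℵ₀ ≤ m := hων.trans hνm
  have hP : IsIdl {x : B | #(Iic x) ≤ m} := isIdl_le hωm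
  have hPs : {x : B | #(Iic x) ≤ m} ⊆ Sm κ B := fun x hx => lt_of_le_of_lt hx hmκ
  have hPc : #{x : B | #(Iic x) ≤ m} ≤ m :=
    (mk_le_of_gen (gen_all hω hB hstar htop hων hg hP hPs) fun x hx => hx).trans
      ((mul_le_mul' hνm le_rfl).trans (Cardinal.mul_eq_self hωm).le)
  by_contra hcon
  refine absurd (mk_iic_le_of_few hν hνm hm hP b ?_ ?_ ?_) (not_le.2 hbm)
  · exact (Cardinal.mk_le_mk_of_subset fun x hx => hx.1).trans hPc
  · intro e he X hX
    refine (mk_ind_le hων hP hX ?_).trans hνm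
    refine gen_all hω hB hstar htop hων hg (isIdl_gen X) (gen_subset (isIdl_Sm hω) ?_)
    exact fun x hx => (isIdl_Sm hω).lower ((hX.1 hx).trans he) hb
  · intro D hD hDP hDd
    by_contra hbig
    push Not at hbig
    obtain ⟨D', hD', hD'c⟩ := Cardinal.le_mk_iff_exists_subset.1 hbig
    obtain ⟨e⟩ := Cardinal.eq.1 (hι.trans hD'c.symm)
    refine hcon ⟨fun i => (e i : B), fun i => ?_, fun i => hD (hD' (e i).2), fun i j hij => ?_⟩
    · exact not_le.1 (hDP _ (hD' (e i).2))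
    · exact hDd (hD' (e i).2) (hD' (e j).2) fun h => hij (e.injective (Subtype.ext h))

/-- the unbounded case -/
theorem unbounded_false (hω : ℵ₀ ≤ κ) (hB : #B = κ) (hstar : Star κ B) (htop : ¬ Sc (⊤ : B))
    (hνm : κ.ord.cof ≤ m) (hm : ∀ τ < κ.ord.cof, m ^ τ ≤ m) (hmκ : m < κ)
    (hunb : ∀ θ < κ, ∃ b ∈ Sm κ B, θ < #(Iic b)) : False := by
  have hν : (κ.ord.cof).IsRegular := Cardinal.isRegular_cof (Cardinal.isSuccLimit_ord hω)
  set ν : Cardinal.{u} := κ.ord.cof with hνdef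
  have hων : ℵ₀ ≤ ν := hν.aleph0_le
  have hνκ : ν < κ := hνm.trans_lt hmκ
  have hg : Gen ν (Sm κ B) := gen_Sm hω hB hstar hων le_rfl hunb
  -- the elements with at most `ν` elements below
  have hQ : #{x : B | #(Iic x) ≤ ν} ≤ ν :=
    (mk_le_of_gen (gen_all hω hB hstar htop hων hg (isIdl_le hων)
      fun x hx => lt_of_le_of_lt hx hνκ) fun x hx => hx).trans (Cardinal.mul_eq_self hων).le
  have hreg : (Order.succ ν).IsRegular := Cardinal.isRegular_succ hων
  choose g hg1 hg2 using fun q : {q : B // #(Iic q) ≤ ν ∧ Sc q} =>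
    exists_rank_bound hων q.2.1 q.2.2
  have hsup : iSup g < (Order.succ ν).ord := by
    refine Ordinal.iSup_lt_of_lt_cof ?_ hg1
    rw [hreg.cof_ord]
    refine lt_of_le_of_lt ?_ (Order.lt_succ ν)
    exact (Cardinal.mk_le_mk_of_subset (s := {q : B | #(Iic q) ≤ ν ∧ Sc q})
      (t := {q : B | #(Iic q) ≤ ν}) fun x hx => hx.1).trans hQ
  -- a superatomic subring of large rank
  let Big : B → Prop := fun b => b ∈ Sm κ B ∧ m < #(Iic b)
  have hbot : ¬ Big ⊥ := by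
    rintro ⟨-, h⟩
    exact absurd (isIdl_le (B := B) (hων.trans hνm)).bot (not_le.2 h)
  have hfam : ∀ b, Big b → ∃ d : ν.out → B, (∀ i, Big (d i)) ∧ (∀ i, d i ≤ b) ∧
      ∀ i j, i ≠ j → Disjoint (d i) (d j) := by
    rintro b ⟨hb, hbm⟩
    obtain ⟨d, h1, h2, h3⟩ := exists_family hω hB hstar htop hν hg hνm hm hmκ
      (Cardinal.mk_out ν) hb hbm
    exact ⟨d, fun i => ⟨(isIdl_Sm hω).lower (h2 i) hb, h1 i⟩, h2, h3⟩
  obtain ⟨b, hb, hbm⟩ := hunb m hmκ
  obtain ⟨S, hS, hSc, hr1, hr2⟩ := exists_rank hων (Cardinal.mk_out ν) Big hbot hfam (iSup g) hsup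
    b ⟨hb, hbm⟩
  have hA : #(ext hS) = κ := by
    refine mk_eq_of_subset (T := (ext hS : Set B)) hB (fun x hx => ?_) (mk_iic_compl hω hB hb)
    change x ⊓ b ∈ S
    rw [(le_compl_iff_disjoint_right.1 hx).eq_bot]
    exact hS.bot
  obtain ⟨φ⟩ := hstar _ hA
  have hbA : b ∈ ext hS := by
    rw [mem_ext, inf_idem]
    exact hS.top
  let bA : ext hS := ⟨b, hbA⟩
  have hloc : ∀ x ≤ b, (x ∈ (ext hS : Set B) ↔ x ∈ S) := fun x hx => mem_ext_of_le hx
  have hrk : ∀ γ : Ordinal.{u}, RkGe γ (φ bA) ↔ RkIn S γ b := by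
    intro γ
    rw [rkGe_map_iff φ, rkGe_iff_rkIn]
    exact rkIn_local hloc
  have hq1 : #(Iic (φ bA)) ≤ ν := by
    rw [mk_iic_map]
    refine le_trans ?_ hSc
    refine Cardinal.mk_le_of_injective (f := fun x : Iic bA =>
      (⟨((x : ext hS) : B), (mem_ext_of_le x.2).1 (x : ext hS).2⟩ : S)) fun x y h => ?_
    exact Subtype.ext (Subtype.ext (congrArg (fun z : S => (z : B)) h))
  have hq2 : Sc (φ bA) := ⟨_, fun h => hr2 ((hrk _).1 h)⟩
  have h1 : RkGe (iSup g) (φ bA) := (hrk _).2 hr1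
  exact hg2 ⟨φ bA, hq1, hq2⟩ (h1.anti (Ordinal.le_iSup g ⟨φ bA, hq1, hq2⟩))

end Pool.Agent.U744.SA
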