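import Mathlib
import Pool.Agent.U744.SA.Main
import Pool.Agent.U744.SA.Power
import Pool.Agent.U744.SA.Cover

set_option autoImplicit false

/-!
Boolean algebras isomorphic to all their subalgebras of full size: singular cardinals with a
covering condition.
-/

open Cardinal Ordinal Set
open Pool.Agent.Helper372.SuperAt
open Pool.Agent.Y586.SA

universe u

namespace Pool.Agent.U744.SA

variable {B : Type u} [BooleanAlgebra B] {κ ν m : Cardinal.{u}}

/-- the covering condition and a bound for the small powers of two -/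
theorem sc_top_of_cover (hω : ℵ₀ ≤ κ) (hB : #B = κ) (hstar : Star κ B)
    (h1 : ∃ m < κ, ∀ τ < κ.ord.cof, (2 : Cardinal.{u}) ^ τ ≤ m) (h2 : CoverProp κ) :
    Sc (⊤ : B) := by
  by_contra htop
  obtain ⟨m, hm, hm2⟩ := h1
  have hν : (κ.ord.cof).IsRegular := Cardinal.isRegular_cof (Cardinal.isSuccLimit_ord hω)
  have hνκ : κ.ord.cof < κ := by
    refine lt_of_le_of_ne (Ordinal.cof_ord_le κ) fun h => ?_
    exact absurd (hm2 m (by rw [h]; exact hm)) (not_le.2 (Cardinal.cantor m))
  have hopt : #(Option PUnit.{u+1}) = 2 := by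
    rw [Cardinal.mk_option, Cardinal.mk_punit, one_add_one_eq_two]
  have hle : #(BF κ.ord.cof PUnit.{u+1}) ≤ max m κ.ord.cof := by
    refine mk_BF_le (hν.aleph0_le.trans (le_max_right _ _)) (le_max_right _ _) fun ρ hρ => ?_
    rw [hopt]
    exact (hm2 ρ hρ).trans (le_max_left _ _)
  have hlt : #(BF κ.ord.cof PUnit.{u+1}) < κ := hle.trans_lt (max_lt hm hνκ)
  by_cases hunb : ∀ θ < κ, ∃ b ∈ Sm κ B, θ < #(Iic b)
  · exact unbounded_false hω hB hstar htop le_mk_BF (fun τ hτ => mk_BF_pow hν hτ) hlt hunb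
  · push Not at hunb
    obtain ⟨θ, hθ, hb⟩ := hunb
    exact bounded_false hω hB hstar htop hνκ h2 hθ hb

/-- the covering condition when the cardinals of a final segment are regular -/
theorem coverProp_of_regular {lam : Cardinal.{u}} (hω : ℵ₀ < κ) (hlam : lam < κ)
    (hreg : ∀ h, lam < h → h < κ → h.IsRegular) : CoverProp κ := by
  intro θ hθ
  refine ⟨max (max θ lam) ℵ₀, max_lt (max_lt hθ hlam) hω, fun S hS => ?_⟩
  obtain ⟨F, hF1, hF2, hF3⟩ := exists_cover (κ := κ) (θ := max (max θ lam) ℵ₀)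
    (le_max_right _ _) (fun h h1 h2 => hreg h (((le_max_right _ _).trans (le_max_left _ _)).trans_lt
      h1) h2) #S S rfl hS
  refine ⟨F, hF1.trans_lt (max_lt hS (max_lt (max_lt hθ hlam) hω)), hF2, fun W hW => ?_⟩
  exact hF3 W (hW.trans ((le_max_left _ _).trans (le_max_left _ _)))

/-- the cardinals of cofinality `ω` which are not limits of limit cardinals -/
theorem sc_top_of_aleph (α : Ordinal.{u}) (hB : #B = ℵ_ (α + ω)) (hstar : Star (ℵ_ (α + ω)) B) :
    Sc (⊤ : B) := by
  have hlim : Order.IsSuccLimit (α + ω) := Ordinal.isSuccLimit_add α Ordinal.isSuccLimit_omega0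
  have hα : α < α + ω := lt_add_of_pos_right α Ordinal.omega0_pos
  have hω : ℵ₀ < ℵ_ (α + ω) := by
    rw [← Cardinal.aleph_zero]
    exact Cardinal.aleph_lt_aleph.2 (lt_of_le_of_lt (zero_le) hα)
  have hcof : (ℵ_ (α + ω)).ord.cof = ℵ₀ := by
    rw [Cardinal.ord_aleph, Ordinal.cof_omega hlim, Ordinal.cof_add _ Ordinal.omega0_ne_zero,
      Ordinal.cof_omega0]
  refine sc_top_of_cover hω.le hB hstar ⟨ℵ₀, hω, fun τ hτ => ?_⟩
    (coverProp_of_regular (lam := ℵ_ α) hω (Cardinal.aleph_lt_aleph.2 hα) fun h h1 h2 => ?_)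
  · rw [hcof] at hτ
    exact (Cardinal.power_lt_aleph0 Cardinal.natCast_lt_aleph0 hτ).le
  · obtain ⟨β, rfl⟩ := Cardinal.mem_range_aleph_iff.2 ((Cardinal.aleph0_le_aleph α).trans h1.le)
    have hαβ : α < β := Cardinal.aleph_lt_aleph.1 h1
    have hβ : β < α + ω := Cardinal.aleph_lt_aleph.1 h2
    have hs : α + (β - α) = β := Ordinal.add_sub_cancel_of_le hαβ.le
    have hlt : β - α < ω := by
      rw [← hs] at hβ
      exact (add_lt_add_iff_left α).1 hβ
    obtain ⟨n, hn⟩ := Ordinal.lt_omega0.1 hlt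
    rw [hn] at hs
    cases n with
    | zero =>
      rw [Nat.cast_zero, add_zero] at hs
      exact absurd hs (ne_of_lt hαβ)
    | succ k =>
      rw [← hs, Nat.cast_succ, ← add_assoc]
      exact Cardinal.isRegular_aleph_add_one _

end Pool.Agent.U744.SA
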