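import Mathlib
import Pool.Agent.U744.SA.Rank

set_option autoImplicit false

/-!
Subrings without superatomic top whose superatomic elements have rank at most `γ`, and such that
the rank `γ` occurs below every element which is not superatomic.
-/

open Cardinal Ordinal Set
open Pool.Agent.Helper372.SuperAt

universe u

namespace Pool.Agent.U744.SA

variable {B : Type u} [BooleanAlgebra B]

/-- all ranks: not superatomic inside of `S` -/
def NS (S : Set B) (y : B) : Prop := ∀ δ : Ordinal.{u}, RkIn S δ y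

variable {S T : Set B}

theorem NS.mono {y z : B} (h : y ≤ z) (hy : NS S y) : NS S z := fun δ => (hy δ).mono h

theorem ns_local {b : B} (hb : ∀ x ≤ b, (x ∈ S ↔ x ∈ T)) : NS S b ↔ NS T b :=
  forall_congr' fun _ => rkIn_local hb

theorem NS.of_sup (hinf : ∀ x ∈ S, ∀ y ∈ S, x ⊓ y ∈ S) {a b : B} (ha : a ∈ S) (hb : b ∈ S)
    (h : NS S (a ⊔ b)) : NS S a ∨ NS S b := by
  by_contra hcon
  rw [not_or] at hcon
  obtain ⟨h1, h2⟩ := hcon
  unfold NS at h1 h2
  push Not at h1 h2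
  obtain ⟨δ, hδ⟩ := h1
  obtain ⟨ε, hε⟩ := h2
  rcases (h (max δ ε)).of_sup hinf ha hb with h3 | h3
  · exact hδ (h3.anti (le_max_left _ _))
  · exact hε (h3.anti (le_max_right _ _))

theorem not_ns_bot : ¬ NS S (⊥ : B) := fun h => (h 0).ne_bot rfl

theorem not_ns_iff {y : B} : ¬ NS S y ↔ ∃ δ : Ordinal.{u}, ¬ RkIn S δ y := by
  unfold NS
  push Not
  rfl

/-- `y` is pure of rank `γ` inside of `S` -/
def PureIn (S : Set B) (γ : Ordinal.{u}) (y : B) : Prop :=
  NS S y ∧ (∀ z ∈ S, z ≤ y → ¬ NS S z → ¬ RkIn S (Order.succ γ) z) ∧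
    ∀ z ∈ S, z ≤ y → NS S z → ∃ t ∈ S, t ≤ z ∧ ¬ NS S t ∧ RkIn S γ t

theorem pureIn_local_aux {γ : Ordinal.{u}} {b : B} (hb : ∀ x ≤ b, (x ∈ S ↔ x ∈ T))
    (h : PureIn S γ b) : PureIn T γ b := by
  have hloc : ∀ z ≤ b, ∀ x ≤ z, (x ∈ S ↔ x ∈ T) := fun z hz x hx => hb x (hx.trans hz)
  refine ⟨(ns_local hb).1 h.1, fun z hz hzb hns hr => ?_, fun z hz hzb hns => ?_⟩
  · exact h.2.1 z ((hb z hzb).2 hz) hzb (fun h1 => hns ((ns_local (hloc z hzb)).1 h1))
      ((rkIn_local (hloc z hzb)).2 hr)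
  · obtain ⟨t, ht, htz, h1, h2⟩ := h.2.2 z ((hb z hzb).2 hz) hzb ((ns_local (hloc z hzb)).2 hns)
    have htb := htz.trans hzb
    exact ⟨t, (hb t htb).1 ht, htz, fun h3 => h1 ((ns_local (hloc t htb)).2 h3),
      (rkIn_local (hloc t htb)).1 h2⟩

theorem pureIn_local {γ : Ordinal.{u}} {b : B} (hb : ∀ x ≤ b, (x ∈ S ↔ x ∈ T)) :
    PureIn S γ b ↔ PureIn T γ b :=
  ⟨pureIn_local_aux hb, pureIn_local_aux fun x hx => (hb x hx).symm⟩

theorem pureIn_le {γ γ' : Ordinal.{u}} {y y' z : B} (h : PureIn S γ y) (h' : PureIn S γ' y')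
    (hz : z ∈ S) (hzy : z ≤ y) (hzy' : z ≤ y') (hns : NS S z) : γ ≤ γ' := by
  obtain ⟨t, ht, htz, h1, h2⟩ := h.2.2 z hz hzy hns
  by_contra hlt
  push Not at hlt
  exact h'.2.1 t ht (htz.trans hzy') h1 (h2.anti (Order.succ_le_of_lt hlt))

theorem pureIn_unique {γ γ' : Ordinal.{u}} {y y' z : B} (h : PureIn S γ y) (h' : PureIn S γ' y')
    (hz : z ∈ S) (hzy : z ≤ y) (hzy' : z ≤ y') (hns : NS S z) : γ = γ' :=
  le_antisymm (pureIn_le h h' hz hzy hzy' hns) (pureIn_le h' h hz hzy' hzy hns)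

section Tree

variable {X : Type u} (val : X → B) (u v w : X → X) (H : X → Set B)

/-- the levels of the construction -/
def TT : ℕ → X → Set B
  | 0, x => {⊥, val x}
  | n + 1, x => {y | y ≤ val x ∧ y ⊓ val (u x) ∈ TT n (u x) ∧ y ⊓ val (v x) ∈ TT n (v x) ∧
      y ⊓ val (w x) ∈ H (w x)}

/-- the union of the levels -/
def TU (x : X) : Set B := {y | ∃ n, y ∈ TT val u v w H n x}

variable {val u v w H}

theorem sdiff_inf_mem {d x y : B} {S : Set B} (hdx : d ≤ x) (hS : SubR d S) (h : y ⊓ d ∈ S) :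
    (x \ y) ⊓ d ∈ S := by
  have h1 := hS.compl _ h
  rw [sdiff_inf_self_right] at h1
  rwa [sdiff_inf_right_comm, inf_eq_right.2 hdx]

theorem subR_TT (hu : ∀ x, val (u x) ≤ val x) (hv : ∀ x, val (v x) ≤ val x)
    (hw : ∀ x, val (w x) ≤ val x) (hH : ∀ x, SubR (val x) (H x)) (n : ℕ) :
    ∀ x, SubR (val x) (TT val u v w H n x) := by
  induction n with
  | zero => exact fun x => subR_pair _
  | succ n ih =>
    intro x
    refine ⟨⟨bot_le, ?_, ?_, ?_⟩, ⟨le_rfl, ?_, ?_, ?_⟩, fun y hy => hy.1, ?_, ?_, ?_⟩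
    · rw [bot_inf_eq]; exact (ih _).bot
    · rw [bot_inf_eq]; exact (ih _).bot
    · rw [bot_inf_eq]; exact (hH _).bot
    · rw [inf_eq_right.2 (hu x)]; exact (ih _).top
    · rw [inf_eq_right.2 (hv x)]; exact (ih _).top
    · rw [inf_eq_right.2 (hw x)]; exact (hH _).top
    · rintro y ⟨h1, h2, h3, h4⟩ z ⟨k1, k2, k3, k4⟩
      refine ⟨sup_le h1 k1, ?_, ?_, ?_⟩
      · rw [inf_sup_right]; exact (ih _).sup _ h2 _ k2
      · rw [inf_sup_right]; exact (ih _).sup _ h3 _ k3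
      · rw [inf_sup_right]; exact (hH _).sup _ h4 _ k4
    · rintro y ⟨h1, h2, h3, h4⟩ z ⟨k1, k2, k3, k4⟩
      refine ⟨inf_le_left.trans h1, ?_, ?_, ?_⟩
      · rw [inf_inf_distrib_right]; exact (ih _).inf _ h2 _ k2
      · rw [inf_inf_distrib_right]; exact (ih _).inf _ h3 _ k3
      · rw [inf_inf_distrib_right]; exact (hH _).inf _ h4 _ k4
    · rintro y ⟨h1, h2, h3, h4⟩
      exact ⟨sdiff_le, sdiff_inf_mem (hu x) (ih _) h2, sdiff_inf_mem (hv x) (ih _) h3,
        sdiff_inf_mem (hw x) (hH _) h4⟩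

theorem TT_succ (hu : ∀ x, val (u x) ≤ val x) (hv : ∀ x, val (v x) ≤ val x)
    (hw : ∀ x, val (w x) ≤ val x) (hH : ∀ x, SubR (val x) (H x)) (n : ℕ) :
    ∀ x, TT val u v w H n x ⊆ TT val u v w H (n + 1) x := by
  induction n with
  | zero =>
    rintro x y (rfl | rfl)
    · exact (subR_TT hu hv hw hH 1 x).bot
    · exact (subR_TT hu hv hw hH 1 x).top
  | succ n ih =>
    rintro x y ⟨h1, h2, h3, h4⟩
    exact ⟨h1, ih _ h2, ih _ h3, h4⟩

theorem TT_mono (hu : ∀ x, val (u x) ≤ val x) (hv : ∀ x, val (v x) ≤ val x)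
    (hw : ∀ x, val (w x) ≤ val x) (hH : ∀ x, SubR (val x) (H x)) {m n : ℕ} (h : m ≤ n) (x : X) :
    TT val u v w H m x ⊆ TT val u v w H n x := by
  induction h with
  | refl => exact Subset.rfl
  | step h ih => exact ih.trans (TT_succ hu hv hw hH _ x)

theorem subR_TU (hu : ∀ x, val (u x) ≤ val x) (hv : ∀ x, val (v x) ≤ val x)
    (hw : ∀ x, val (w x) ≤ val x) (hH : ∀ x, SubR (val x) (H x)) (x : X) :
    SubR (val x) (TU val u v w H x) where
  bot := ⟨0, Or.inl rfl⟩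
  top := ⟨0, Or.inr rfl⟩
  le := by
    rintro y ⟨n, hn⟩
    exact (subR_TT hu hv hw hH n x).le _ hn
  sup := by
    rintro y ⟨n, hn⟩ z ⟨m, hm⟩
    exact ⟨max n m, (subR_TT hu hv hw hH _ x).sup _ (TT_mono hu hv hw hH (le_max_left _ _) x hn) _
      (TT_mono hu hv hw hH (le_max_right _ _) x hm)⟩
  inf := by
    rintro y ⟨n, hn⟩ z ⟨m, hm⟩
    exact ⟨max n m, (subR_TT hu hv hw hH _ x).inf _ (TT_mono hu hv hw hH (le_max_left _ _) x hn) _
      (TT_mono hu hv hw hH (le_max_right _ _) x hm)⟩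
  compl := by
    rintro y ⟨n, hn⟩
    exact ⟨n, (subR_TT hu hv hw hH n x).compl _ hn⟩

/-- the hypotheses on the splitting -/
structure Split (val : X → B) (u v w : X → X) (H : X → Set B) : Prop where
  ne : ∀ x, val x ≠ ⊥
  sup : ∀ x, val (u x) ⊔ val (v x) ⊔ val (w x) = val x
  uv : ∀ x, Disjoint (val (u x)) (val (v x))
  uw : ∀ x, Disjoint (val (u x)) (val (w x))
  vw : ∀ x, Disjoint (val (v x)) (val (w x))
  host : ∀ x, SubR (val x) (H x)

namespace Split

variable (hs : Split val u v w H)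
include hs

theorem u_le (x : X) : val (u x) ≤ val x := by
  rw [← hs.sup x, sup_assoc]
  exact le_sup_left

theorem v_le (x : X) : val (v x) ≤ val x := by
  rw [← hs.sup x]
  exact le_sup_right.trans le_sup_left

theorem w_le (x : X) : val (w x) ≤ val x := by
  rw [← hs.sup x]
  exact le_sup_right

theorem subT (x : X) : SubR (val x) (TU val u v w H x) :=
  subR_TU hs.u_le hs.v_le hs.w_le hs.host x

theorem mem_u (x : X) : ∀ y ≤ val (u x), (y ∈ TU val u v w H x ↔ y ∈ TU val u v w H (u x)) := by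
  intro y hy
  constructor
  · rintro ⟨n, hn⟩
    have h := TT_succ hs.u_le hs.v_le hs.w_le hs.host n x hn
    have h2 := h.2.1
    rw [inf_eq_left.2 hy] at h2
    exact ⟨n, h2⟩
  · rintro ⟨n, hn⟩
    refine ⟨n + 1, hy.trans (hs.u_le x), ?_, ?_, ?_⟩
    · rwa [inf_eq_left.2 hy]
    · rw [((hs.uv x).mono_left hy).eq_bot]
      exact (subR_TT hs.u_le hs.v_le hs.w_le hs.host n _).bot
    · rw [((hs.uw x).mono_left hy).eq_bot]
      exact (hs.host _).bot

theorem mem_v (x : X) : ∀ y ≤ val (v x), (y ∈ TU val u v w H x ↔ y ∈ TU val u v w H (v x)) := by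
  intro y hy
  constructor
  · rintro ⟨n, hn⟩
    have h := TT_succ hs.u_le hs.v_le hs.w_le hs.host n x hn
    have h2 := h.2.2.1
    rw [inf_eq_left.2 hy] at h2
    exact ⟨n, h2⟩
  · rintro ⟨n, hn⟩
    refine ⟨n + 1, hy.trans (hs.v_le x), ?_, ?_, ?_⟩
    · rw [((hs.uv x).symm.mono_left hy).eq_bot]
      exact (subR_TT hs.u_le hs.v_le hs.w_le hs.host n _).bot
    · rwa [inf_eq_left.2 hy]
    · rw [((hs.vw x).mono_left hy).eq_bot]
      exact (hs.host _).bot

theorem mem_w (x : X) : ∀ y ≤ val (w x), (y ∈ TU val u v w H x ↔ y ∈ H (w x)) := by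
  intro y hy
  constructor
  · rintro ⟨n, hn⟩
    have h := TT_succ hs.u_le hs.v_le hs.w_le hs.host n x hn
    have h2 := h.2.2.2
    rwa [inf_eq_left.2 hy] at h2
  · intro hn
    refine ⟨1, hy.trans (hs.w_le x), ?_, ?_, ?_⟩
    · rw [((hs.uw x).symm.mono_left hy).eq_bot]
      exact Or.inl rfl
    · rw [((hs.vw x).symm.mono_left hy).eq_bot]
      exact Or.inl rfl
    · rwa [inf_eq_left.2 hy]

theorem iter_le (x : X) {m n : ℕ} (h : m ≤ n) : val (v^[n] x) ≤ val (v^[m] x) := by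
  induction h with
  | refl => exact le_rfl
  | step h ih =>
    rw [Function.iterate_succ_apply']
    exact (hs.v_le _).trans ih

theorem mem_iter (x : X) (n : ℕ) : ∀ y ≤ val (v^[n] x),
    (y ∈ TU val u v w H x ↔ y ∈ TU val u v w H (v^[n] x)) := by
  induction n with
  | zero => exact fun y _ => Iff.rfl
  | succ n ih =>
    intro y hy
    rw [ih y (hy.trans (hs.iter_le x n.le_succ))]
    rw [Function.iterate_succ_apply'] at hy ⊢
    exact hs.mem_v _ y hy

theorem ns (δ : Ordinal.{u}) : ∀ x, RkIn (TU val u v w H x) δ (val x) := by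
  induction δ using WellFoundedLT.induction with
  | _ δ ih =>
    intro x
    rw [rkIn_iff]
    refine ⟨hs.ne x, fun ε hε => ?_⟩
    have hle : ∀ n, val (u (v^[n] x)) ≤ val (v^[n] x) := fun n => hs.u_le _
    have hloc : ∀ n, ∀ y ≤ val (u (v^[n] x)),
        (y ∈ TU val u v w H x ↔ y ∈ TU val u v w H (u (v^[n] x))) := by
      intro n y hy
      rw [hs.mem_iter x n y (hy.trans (hle n)), hs.mem_u _ y hy]
    refine ⟨fun n => val (u (v^[n] x)), fun n => ?_, fun n => ?_, fun m n hmn => ?_, fun n => ?_⟩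
    · exact (hloc n _ le_rfl).2 (hs.subT _).top
    · exact (hle n).trans (hs.iter_le x (Nat.zero_le n))
    · have h1 : val (u (v^[n] x)) ≤ val (v (v^[m] x)) := by
        have h2 : v (v^[m] x) = v^[m + 1] x := (Function.iterate_succ_apply' v m x).symm
        rw [h2]
        exact (hle n).trans (hs.iter_le x hmn)
      exact (hs.uv _).mono_right h1
    · exact (rkIn_local (hloc n)).2 (ih ε hε _)

theorem decomp (x : X) {y : B} (hy : y ≤ val x) :
    y = (y ⊓ val (u x)) ⊔ (y ⊓ val (v x)) ⊔ (y ⊓ val (w x)) := by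
  rw [← inf_sup_left, ← inf_sup_left, hs.sup, inf_eq_left.2 hy]

theorem mem_inf (x : X) {y : B} (hy : y ∈ TU val u v w H x) :
    y ⊓ val (u x) ∈ TU val u v w H x ∧ y ⊓ val (v x) ∈ TU val u v w H x ∧
      y ⊓ val (w x) ∈ TU val u v w H x :=
  ⟨(hs.subT x).inf _ hy _ ((hs.mem_u x _ le_rfl).2 (hs.subT _).top),
    (hs.subT x).inf _ hy _ ((hs.mem_v x _ le_rfl).2 (hs.subT _).top),
    (hs.subT x).inf _ hy _ ((hs.mem_w x _ le_rfl).2 (hs.host _).top)⟩

theorem up {γ : Ordinal.{u}} (hr : ∀ x, ¬ RkIn (H x) (Order.succ γ) (val x)) (n : ℕ) :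
    ∀ x, ∀ y ∈ TT val u v w H n x, ¬ NS (TU val u v w H x) y →
      ¬ RkIn (TU val u v w H x) (Order.succ γ) y := by
  induction n with
  | zero =>
    rintro x y (rfl | rfl) h1 h2
    · exact h2.ne_bot rfl
    · exact h1 fun δ => hs.ns δ x
  | succ n ih =>
    intro x y hy h1 h2
    obtain ⟨hy1, hy2, hy3, hy4⟩ := id hy
    obtain ⟨m1, m2, m3⟩ := hs.mem_inf x ⟨_, hy⟩
    rw [hs.decomp x hy1] at h2
    rcases h2.of_sup (hs.subT x).inf ((hs.subT x).sup _ m1 _ m2) m3 with h3 | h3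
    · rcases h3.of_sup (hs.subT x).inf m1 m2 with h4 | h4
      · have hloc : ∀ z ≤ y ⊓ val (u x), (z ∈ TU val u v w H x ↔ z ∈ TU val u v w H (u x)) :=
          fun z hz => hs.mem_u x z (hz.trans inf_le_right)
        exact ih (u x) _ hy2 (fun h5 => h1 (((ns_local hloc).2 h5).mono inf_le_left))
          ((rkIn_local hloc).1 h4)
      · have hloc : ∀ z ≤ y ⊓ val (v x), (z ∈ TU val u v w H x ↔ z ∈ TU val u v w H (v x)) :=
          fun z hz => hs.mem_v x z (hz.trans inf_le_right)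
        exact ih (v x) _ hy3 (fun h5 => h1 (((ns_local hloc).2 h5).mono inf_le_left))
          ((rkIn_local hloc).1 h4)
    · have hloc : ∀ z ≤ y ⊓ val (w x), (z ∈ TU val u v w H x ↔ z ∈ H (w x)) :=
        fun z hz => hs.mem_w x z (hz.trans inf_le_right)
      exact hr (w x) (((rkIn_local hloc).1 h3).mono inf_le_right)

theorem down {γ : Ordinal.{u}} (hr : ∀ x, ¬ RkIn (H x) (Order.succ γ) (val x))
    (hr' : ∀ x, RkIn (H x) γ (val x)) (n : ℕ) :
    ∀ x, ∀ y ∈ TT val u v w H n x, NS (TU val u v w H x) y →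
      ∃ t ∈ TU val u v w H x, t ≤ y ∧ ¬ NS (TU val u v w H x) t ∧
        RkIn (TU val u v w H x) γ t := by
  have hw : ∀ x, ¬ NS (TU val u v w H x) (val (w x)) := fun x h =>
    hr (w x) ((rkIn_local (hs.mem_w x)).1 (h _))
  induction n with
  | zero =>
    rintro x y (rfl | rfl) h1
    · exact absurd h1 not_ns_bot
    · exact ⟨val (w x), (hs.mem_w x _ le_rfl).2 (hs.host _).top, hs.w_le x, hw x,
        (rkIn_local (hs.mem_w x)).2 (hr' _)⟩
  | succ n ih =>
    intro x y hy h2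
    obtain ⟨hy1, hy2, hy3, hy4⟩ := id hy
    obtain ⟨m1, m2, m3⟩ := hs.mem_inf x ⟨_, hy⟩
    rw [hs.decomp x hy1] at h2
    rcases h2.of_sup (hs.subT x).inf ((hs.subT x).sup _ m1 _ m2) m3 with h3 | h3
    · rcases h3.of_sup (hs.subT x).inf m1 m2 with h4 | h4
      · have hloc : ∀ z ≤ y ⊓ val (u x), (z ∈ TU val u v w H x ↔ z ∈ TU val u v w H (u x)) :=
          fun z hz => hs.mem_u x z (hz.trans inf_le_right)
        obtain ⟨t, t1, t2, t3, t4⟩ := ih (u x) _ hy2 ((ns_local hloc).1 h4)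
        have hloc' : ∀ z ≤ t, (z ∈ TU val u v w H x ↔ z ∈ TU val u v w H (u x)) :=
          fun z hz => hloc z (hz.trans t2)
        exact ⟨t, (hloc t t2).2 t1, t2.trans inf_le_left, fun h => t3 ((ns_local hloc').1 h),
          (rkIn_local hloc').2 t4⟩
      · have hloc : ∀ z ≤ y ⊓ val (v x), (z ∈ TU val u v w H x ↔ z ∈ TU val u v w H (v x)) :=
          fun z hz => hs.mem_v x z (hz.trans inf_le_right)
        obtain ⟨t, t1, t2, t3, t4⟩ := ih (v x) _ hy3 ((ns_local hloc).1 h4)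
        have hloc' : ∀ z ≤ t, (z ∈ TU val u v w H x ↔ z ∈ TU val u v w H (v x)) :=
          fun z hz => hloc z (hz.trans t2)
        exact ⟨t, (hloc t t2).2 t1, t2.trans inf_le_left, fun h => t3 ((ns_local hloc').1 h),
          (rkIn_local hloc').2 t4⟩
    · exact absurd (h3.mono inf_le_right) (hw x)

theorem pure {γ : Ordinal.{u}} (hr : ∀ x, ¬ RkIn (H x) (Order.succ γ) (val x))
    (hr' : ∀ x, RkIn (H x) γ (val x)) (x : X) : PureIn (TU val u v w H x) γ (val x) := by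
  refine ⟨fun δ => hs.ns δ x, ?_, ?_⟩
  · rintro z ⟨n, hn⟩ - h
    exact hs.up hr n x z hn h
  · rintro z ⟨n, hn⟩ - h
    exact hs.down hr hr' n x z hn h

theorem mk_TT {ν : Cardinal.{u}} (hν : ℵ₀ ≤ ν) (hHc : ∀ x, #(H x) ≤ ν) (n : ℕ) :
    ∀ x, #(TT val u v w H n x) ≤ ν := by
  induction n with
  | zero =>
    intro x
    exact (Cardinal.lt_aleph0_iff_set_finite.2 (Set.toFinite ({⊥, val x} : Set B))).le.trans hν
  | succ n ih =>
    intro x
    have hinj : Function.Injective (fun y : TT val u v w H (n + 1) x =>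
        ((⟨(y : B) ⊓ val (u x), y.2.2.1⟩ : TT val u v w H n (u x)),
        (⟨(y : B) ⊓ val (v x), y.2.2.2.1⟩ : TT val u v w H n (v x)),
        (⟨(y : B) ⊓ val (w x), y.2.2.2.2⟩ : H (w x)))) := by
      intro y z h
      have h1 : (y : B) ⊓ val (u x) = (z : B) ⊓ val (u x) :=
        congrArg (fun p : TT val u v w H n (u x) × TT val u v w H n (v x) × H (w x) =>
          (p.1 : B)) h
      have h2 : (y : B) ⊓ val (v x) = (z : B) ⊓ val (v x) :=
        congrArg (fun p : TT val u v w H n (u x) × TT val u v w H n (v x) × H (w x) =>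
          (p.2.1 : B)) h
      have h3 : (y : B) ⊓ val (w x) = (z : B) ⊓ val (w x) :=
        congrArg (fun p : TT val u v w H n (u x) × TT val u v w H n (v x) × H (w x) =>
          (p.2.2 : B)) h
      apply Subtype.ext
      rw [hs.decomp x y.2.1, hs.decomp x z.2.1, h1, h2, h3]
    refine (Cardinal.mk_le_of_injective hinj).trans ?_
    rw [Cardinal.mk_prod, Cardinal.mk_prod, Cardinal.lift_id, Cardinal.lift_id, Cardinal.lift_id,
      Cardinal.lift_id]
    refine (mul_le_mul' (ih _) (mul_le_mul' (ih _) (hHc _))).trans ?_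
    rw [Cardinal.mul_eq_self hν, Cardinal.mul_eq_self hν]

theorem mk_TU {ν : Cardinal.{u}} (hν : ℵ₀ ≤ ν) (hHc : ∀ x, #(H x) ≤ ν) (x : X) :
    #(TU val u v w H x) ≤ ν := by
  have h1 : TU val u v w H x = ⋃ n : ULift.{u} ℕ, TT val u v w H n.down x := by
    ext y
    constructor
    · rintro ⟨n, hn⟩
      exact Set.mem_iUnion.2 ⟨⟨n⟩, hn⟩
    · intro h
      obtain ⟨n, hn⟩ := Set.mem_iUnion.1 h
      exact ⟨n.down, hn⟩
  rw [h1]
  refine Cardinal.mk_iUnion_le_sum_mk.trans ?_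
  refine (Cardinal.sum_le_sum _ _ fun n : ULift.{u} ℕ => hs.mk_TT hν hHc n.down x).trans ?_
  rw [Cardinal.sum_const', Cardinal.mk_uLift, Cardinal.mk_nat, Cardinal.lift_aleph0]
  exact (mul_le_mul' hν le_rfl).trans (Cardinal.mul_eq_self hν).le

end Split

end Tree

end Pool.Agent.U744.SA
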