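import Mathlib
import Pool.Agent.U744.SA.Pure

set_option autoImplicit false

/-!
Many types of small elements: sums of pure subrings of different ranks.
-/

open Cardinal Ordinal Set
open Pool.Agent.Helper372.SuperAt

universe u

namespace Pool.Agent.U744.SA

variable {B : Type u} [BooleanAlgebra B] {κ ν σ : Cardinal.{u}}

/-- pure subrings below elements with hereditarily large disjoint families -/
theorem exists_pure (hσ : ℵ₀ ≤ σ) {ι : Type u} (hι : #ι = σ) (Big : B → Prop)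
    (hbot : ¬ Big ⊥) (hconv : ∀ x y z, Big x → x ≤ y → y ≤ z → Big z → Big y)
    (hfam : ∀ b, Big b → ∃ d : ι → B, (∀ i, Big (d i)) ∧ (∀ i, d i ≤ b) ∧
      ∀ i j, i ≠ j → Disjoint (d i) (d j)) (γ : Ordinal.{u}) (hγ : γ < (Order.succ σ).ord)
    (b : B) (hb : Big b) : ∃ S : Set B, SubR b S ∧ #S ≤ σ ∧ PureIn S γ b := by
  have hinf : Infinite ι := by
    rw [Cardinal.infinite_iff, hι]
    exact hσ
  let g : ℕ ↪ ι := Infinite.natEmbedding ι
  choose d hd1 hd2 hd3 using fun x : {x : B // Big x} => hfam x.1 x.2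
  choose H hH1 hH2 hH3 hH4 using fun x : {x : B // Big x} =>
    exists_rank hσ hι Big hbot hfam γ hγ x.1 x.2
  have hne : ∀ {m n : ℕ}, m ≠ n → ∀ x : {x : B // Big x}, Disjoint (d x (g m)) (d x (g n)) :=
    fun hmn x => hd3 x _ _ fun h => hmn (g.injective h)
  have hle : ∀ x : {x : B // Big x}, d x (g 0) ⊔ d x (g 1) ≤ x.1 := fun x =>
    sup_le (hd2 x _) (hd2 x _)
  let u : {x : B // Big x} → {x : B // Big x} := fun x => ⟨d x (g 0), hd1 x _⟩
  let v : {x : B // Big x} → {x : B // Big x} := fun x => ⟨d x (g 1), hd1 x _⟩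
  let w : {x : B // Big x} → {x : B // Big x} := fun x =>
    ⟨x.1 \ (d x (g 0) ⊔ d x (g 1)), hconv _ _ _ (hd1 x (g 2))
      (le_sdiff.2 ⟨hd2 x _, disjoint_sup_right.2 ⟨hne (by decide) x, hne (by decide) x⟩⟩)
      sdiff_le x.2⟩
  have hs : Split (Subtype.val : {x : B // Big x} → B) u v w H := {
    ne := fun x h => hbot (h ▸ x.2)
    sup := fun x => by
      change d x (g 0) ⊔ d x (g 1) ⊔ (x.1 \ (d x (g 0) ⊔ d x (g 1))) = x.1
      exact sup_sdiff_cancel_right (hle x)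
    uv := fun x => hne (by decide) x
    uw := fun x => disjoint_sdiff_self_right.mono_left le_sup_left
    vw := fun x => disjoint_sdiff_self_right.mono_left le_sup_right
    host := hH1 }
  exact ⟨_, hs.subT ⟨b, hb⟩, hs.mk_TU hσ hH2 ⟨b, hb⟩, hs.pure hH4 hH3 ⟨b, hb⟩⟩

theorem NS.of_finset_sup {S : Set B} {d : B} (hS : SubR d S) {ι : Type u} {g : ι → B}
    (hg : ∀ i, g i ∈ S) (s : Finset ι) (h : NS S (s.sup g)) : ∃ i ∈ s, NS S (g i) := by
  classical
  have hmem : ∀ s : Finset ι, s.sup g ∈ S := by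
    intro s
    induction s using Finset.induction_on with
    | empty => rw [Finset.sup_empty]; exact hS.bot
    | insert a s ha ih => rw [Finset.sup_insert]; exact hS.sup _ (hg a) _ ih
  induction s using Finset.induction_on with
  | empty =>
    rw [Finset.sup_empty] at h
    exact absurd h not_ns_bot
  | insert a s ha ih =>
    rw [Finset.sup_insert] at h
    rcases h.of_sup hS.inf (hg a) (hmem s) with h | h
    · exact ⟨a, Finset.mem_insert_self _ _, h⟩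
    · obtain ⟨i, hi, hi'⟩ := ih h
      exact ⟨i, Finset.mem_insert_of_mem hi, hi'⟩

/-- the ranks of the pure elements of a sum -/
theorem pure_DS_iff {ι : Type u} [Infinite ι] {b : B} {d : ι → B} {R : ι → Set B}
    (hd : ∀ i, d i ≤ b) (hdd : ∀ i j, i ≠ j → Disjoint (d i) (d j))
    (hR : ∀ i, SubR (d i) (R i)) {r : ι → Ordinal.{u}} (hr : ∀ i, PureIn (R i) (r i) (d i))
    {γ : Ordinal.{u}} : (∃ y ∈ DS b d R, PureIn (DS b d R) γ y) ↔ ∃ i, γ = r i := by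
  have hloc : ∀ i, ∀ x ≤ d i, (x ∈ DS b d R ↔ x ∈ R i) := fun i x hx =>
    mem_DS_of_le hd hdd hR hx
  have hp : ∀ i, PureIn (DS b d R) (r i) (d i) := fun i => (pureIn_local (hloc i)).2 (hr i)
  have hmem : ∀ i, d i ∈ DS b d R := fun i => (hloc i _ le_rfl).2 (hR i).top
  have hSR := subR_DS hd hR
  constructor
  · rintro ⟨y, hy, hyp⟩
    have key : ∃ i, NS (DS b d R) (y ⊓ d i) := by
      obtain ⟨hy1, hy2, s, hs | hs⟩ := id hy
      · have h4 : y = s.sup fun i => y ⊓ d i := by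
          rw [← Finset.sup_inf_distrib_left, inf_eq_left.2 hs]
        have h5 := hyp.1
        rw [h4] at h5
        obtain ⟨i, -, hi⟩ := h5.of_finset_sup hSR (fun i => hSR.inf _ hy _ (hmem i))
        exact ⟨i, hi⟩
      · obtain ⟨i, hi⟩ := Infinite.exists_notMem_finset s
        have h6 : d i ≤ y := by
          rw [← sdiff_eq_bot_iff]
          have h7 : d i \ y ≤ s.sup d := (sdiff_le_sdiff_right (hd i)).trans hs
          have h8 : Disjoint (d i) (s.sup d) := by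
            rw [Finset.disjoint_sup_right]
            intro j hj
            exact hdd i j fun h => hi (h ▸ hj)
          exact (h8.mono_left sdiff_le).eq_bot_of_le h7
        refine ⟨i, ?_⟩
        rw [inf_eq_right.2 h6]
        exact (hp i).1
    obtain ⟨i, hi⟩ := key
    exact ⟨i, pureIn_unique hyp (hp i) (hSR.inf _ hy _ (hmem i)) inf_le_left inf_le_right hi⟩
  · rintro ⟨i, rfl⟩
    exact ⟨d i, hmem i, hp i⟩

/-- `y` is pure of rank `γ` -/
def PureEl (γ : Ordinal.{u}) (y : B) : Prop :=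
  (∀ δ : Ordinal.{u}, RkGe δ y) ∧
    (∀ z ≤ y, ¬ (∀ δ : Ordinal.{u}, RkGe δ z) → ¬ RkGe (Order.succ γ) z) ∧
    ∀ z ≤ y, (∀ δ : Ordinal.{u}, RkGe δ z) → ∃ t ≤ z, ¬ (∀ δ : Ordinal.{u}, RkGe δ t) ∧ RkGe γ t

theorem PureEl.map {C : Type u} [BooleanAlgebra C] (φ : B ≃o C) {γ : Ordinal.{u}} {y : B}
    (h : PureEl γ y) : PureEl γ (φ y) := by
  have hns : ∀ x : B, (∀ δ : Ordinal.{u}, RkGe δ (φ x)) ↔ ∀ δ : Ordinal.{u}, RkGe δ x := fun x =>
    forall_congr' fun δ => rkGe_map_iff φ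
  refine ⟨(hns y).2 h.1, fun z hz h1 => ?_, fun z hz h1 => ?_⟩
  · obtain ⟨x, rfl⟩ := φ.surjective z
    rw [hns] at h1
    rw [rkGe_map_iff]
    exact h.2.1 x (φ.le_iff_le.1 hz) h1
  · obtain ⟨x, rfl⟩ := φ.surjective z
    rw [hns] at h1
    obtain ⟨t, ht, h2, h3⟩ := h.2.2 x (φ.le_iff_le.1 hz) h1
    exact ⟨φ t, φ.le_iff_le.2 ht, fun h4 => h2 ((hns t).1 h4), (rkGe_map_iff φ).2 h3⟩

theorem pureEl_map_iff {C : Type u} [BooleanAlgebra C] (φ : B ≃o C) {γ : Ordinal.{u}} {y : B} :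
    PureEl γ (φ y) ↔ PureEl γ y := by
  refine ⟨fun h => ?_, fun h => h.map φ⟩
  have h1 := h.map φ.symm
  rwa [φ.symm_apply_apply] at h1

theorem pureEl_iff_pureIn (A : BooleanSubalgebra B) {γ : Ordinal.{u}} (a : A) :
    PureEl γ a ↔ PureIn (A : Set B) γ (a : B) := by
  have hns : ∀ x : A, (∀ δ : Ordinal.{u}, RkGe δ x) ↔ NS (A : Set B) (x : B) := fun x =>
    forall_congr' fun δ => rkGe_iff_rkIn A x
  constructor
  · intro h
    refine ⟨(hns a).1 h.1, fun z hz hza h1 => ?_, fun z hz hza h1 => ?_⟩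
    · rw [← hns ⟨z, hz⟩] at h1
      exact fun h2 => h.2.1 ⟨z, hz⟩ hza h1 ((rkGe_iff_rkIn A ⟨z, hz⟩).2 h2)
    · rw [← hns ⟨z, hz⟩] at h1
      obtain ⟨t, ht, h2, h3⟩ := h.2.2 ⟨z, hz⟩ hza h1
      exact ⟨t, t.2, ht, fun h4 => h2 ((hns t).2 h4), (rkGe_iff_rkIn A t).1 h3⟩
  · intro h
    refine ⟨(hns a).2 h.1, fun z hz h1 => ?_, fun z hz h1 => ?_⟩
    · rw [hns] at h1
      exact fun h2 => h.2.1 z z.2 hz h1 ((rkGe_iff_rkIn A z).1 h2)
    · rw [hns] at h1
      obtain ⟨t, ht, htz, h2, h3⟩ := h.2.2 z z.2 hz h1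
      exact ⟨⟨t, ht⟩, htz, fun h4 => h2 ((hns ⟨t, ht⟩).1 h4), (rkGe_iff_rkIn A ⟨t, ht⟩).2 h3⟩

open Classical in
/-- the number of the types -/
theorem two_pow_le (hω : ℵ₀ ≤ κ) (hB : #B = κ) (hstar : Star κ B)
    (hσ : ℵ₀ ≤ σ) {ι : Type u} (hι : #ι = σ) (Big : B → Prop)
    (hbot : ¬ Big ⊥) (hconv : ∀ x y z, Big x → x ≤ y → y ≤ z → Big z → Big y)
    (hsm : ∀ x, Big x → x ∈ Sm κ B)
    (hfam : ∀ b, Big b → ∃ d : ι → B, (∀ i, Big (d i)) ∧ (∀ i, d i ≤ b) ∧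
      ∀ i j, i ≠ j → Disjoint (d i) (d j)) {b : B} (hb : Big b) :
    2 ^ σ ≤ #{x : B | #(Iic x) ≤ σ} := by
  have hinf : Infinite ι := by
    rw [Cardinal.infinite_iff, hι]
    exact hσ
  -- labels
  have hcard : #(ι × Bool) = #σ.ord.ToType := by
    rw [Cardinal.mk_prod, Cardinal.lift_uzero, hι, Cardinal.mk_toType, Cardinal.card_ord,
      Cardinal.mk_bool, Cardinal.lift_ofNat]
    exact Cardinal.mul_eq_left hσ ((Cardinal.natCast_lt_aleph0 (n := 2)).le.trans hσ) two_ne_zero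
  obtain ⟨e⟩ := Cardinal.eq.1 hcard
  let g : ι × Bool → Ordinal.{u} := fun p =>
    Ordinal.typein (α := σ.ord.ToType) (· < ·) (e p)
  have hginj : Function.Injective g := (Ordinal.typein_injective _).comp e.injective
  have hg : ∀ p, g p < (Order.succ σ).ord := fun p =>
    (Ordinal.typein_lt_self _).trans (Cardinal.ord_lt_ord.2 (Order.lt_succ σ))
  obtain ⟨d, hdB, hdb, hdd⟩ := hfam b hb
  choose P hP1 hP2 hP3 using fun (p : ι × Bool) (i : ι) =>
    exists_pure hσ hι Big hbot hconv hfam (g p) (hg p) (d i) (hdB i)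
  let R : Set ι → ι → Set B := fun Y i => P (i, decide (i ∈ Y)) i
  have hR : ∀ Y i, SubR (d i) (R Y i) := fun Y i => hP1 _ _
  let D : Set ι → Set B := fun Y => DS b d (R Y)
  have hD : ∀ Y, SubR b (D Y) := fun Y => subR_DS hdb (hR Y)
  have hDc : ∀ Y, #(D Y) ≤ σ := fun Y => mk_DS_le hσ hι.le (fun i => hP2 _ _) hdb (hR Y)
  have hA : ∀ Y, #(ext (hD Y)) = κ := by
    intro Y
    refine mk_eq_of_subset (T := (ext (hD Y) : Set B)) hB (fun x hx => ?_)
      (mk_iic_compl hω hB (hsm b hb))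
    change x ⊓ b ∈ D Y
    rw [(le_compl_iff_disjoint_right.1 hx).eq_bot]
    exact (hD Y).bot
  have φ : ∀ Y, ext (hD Y) ≃o B := fun Y => (hstar _ (hA Y)).some
  have hbA : ∀ Y, b ∈ ext (hD Y) := by
    intro Y
    rw [mem_ext, inf_idem]
    exact (hD Y).top
  have hloc : ∀ Y, ∀ x ≤ b, (x ∈ (ext (hD Y) : Set B) ↔ x ∈ D Y) := fun Y x hx =>
    mem_ext_of_le hx
  let q : Set ι → B := fun Y => φ Y ⟨b, hbA Y⟩
  have hq : ∀ Y, #(Iic (q Y)) ≤ σ := by
    intro Y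
    change #(Iic (φ Y ⟨b, hbA Y⟩)) ≤ σ
    rw [mk_iic_map]
    refine le_trans ?_ (hDc Y)
    refine Cardinal.mk_le_of_injective (f := fun x : Iic (⟨b, hbA Y⟩ : ext (hD Y)) =>
      (⟨((x : ext (hD Y)) : B), (mem_ext_of_le x.2).1 (x : ext (hD Y)).2⟩ : D Y)) fun x y h => ?_
    exact Subtype.ext (Subtype.ext (congrArg (fun z : D Y => (z : B)) h))
  have hinv : ∀ Y (γ : Ordinal.{u}), (∃ y ≤ q Y, PureEl γ y) ↔
      ∃ i, γ = g (i, decide (i ∈ Y)) := by
    intro Y γ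
    rw [← pure_DS_iff (γ := γ) hdb hdd (hR Y) (r := fun i => g (i, decide (i ∈ Y)))
      (fun i => hP3 _ _)]
    constructor
    · rintro ⟨y, hy, h⟩
      obtain ⟨x, rfl⟩ := (φ Y).surjective y
      rw [pureEl_map_iff, pureEl_iff_pureIn] at h
      have hxb : (x : B) ≤ b := (φ Y).le_iff_le.1 hy
      exact ⟨x, (hloc Y _ hxb).1 x.2, (pureIn_local fun z hz => hloc Y z (hz.trans hxb)).1 h⟩
    · rintro ⟨y, hy, h⟩
      have hyb : y ≤ b := hy.1
      have hyA : y ∈ ext (hD Y) := (hloc Y _ hyb).2 hy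
      refine ⟨φ Y ⟨y, hyA⟩, (φ Y).le_iff_le.2 hyb, ?_⟩
      rw [pureEl_map_iff, pureEl_iff_pureIn]
      exact (pureIn_local fun z hz => hloc Y z (hz.trans hyb)).2 h
  have hsub : ∀ Y Z, q Y = q Z → Y ⊆ Z := by
    intro Y Z h i hi
    have h1 := (hinv Y (g (i, true))).2 ⟨i, by simp [hi]⟩
    rw [h, hinv Z] at h1
    obtain ⟨j, hj⟩ := h1
    have h2 := hginj hj
    obtain ⟨h3, h4⟩ := Prod.mk.inj h2
    subst h3
    exact of_decide_eq_true h4.symm
  have hqinj : Function.Injective (fun Y : Set ι => (⟨q Y, hq Y⟩ : {x : B | #(Iic x) ≤ σ})) := by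
    intro Y Z h
    have h1 : q Y = q Z := congrArg Subtype.val h
    exact (hsub Y Z h1).antisymm (hsub Z Y h1.symm)
  have h := Cardinal.mk_le_of_injective hqinj
  rwa [Cardinal.mk_set, hι] at h

end Pool.Agent.U744.SA
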