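import Mathlib
import Pool.Agent.U744.SA.Final
import Pool.Agent.U744.SA.Types

set_option autoImplicit false

/-!
Boolean algebras isomorphic to all their subalgebras of full size: the small powers of two are small
in the unbounded case.
-/

open Cardinal Ordinal Set
open Pool.Agent.Helper372.SuperAt
open Pool.Agent.Y586.SA

universe u

namespace Pool.Agent.U744.SA

section Card

/-- the powers of two at a limit -/
theorem two_pow_le_pow_cof {σ ν : Cardinal.{u}} (hσ : ℵ₀ ≤ σ) (hσν : σ ≤ ν)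
    (h : ∀ ρ < σ, (2 : Cardinal.{u}) ^ ρ ≤ ν) : (2 : Cardinal.{u}) ^ σ ≤ ν ^ σ.ord.cof := by
  classical
  obtain ⟨s, hs, hc⟩ := Order.exists_cof_eq σ.ord.ToType
  have hopt : #(Option PUnit.{u+1}) = 2 := by
    rw [Cardinal.mk_option, Cardinal.mk_punit, one_add_one_eq_two]
  have hBF : #(BF σ PUnit.{u+1}) ≤ ν := by
    refine mk_BF_le (hσ.trans hσν) hσν fun ρ hρ => ?_
    rw [hopt]
    exact h ρ hρ
  have hlim : ∀ v : σ.ord.ToType, ∃ w : s, v < w := by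
    intro v
    have h1 : Order.IsSuccLimit σ.ord := Cardinal.isSuccLimit_ord hσ
    have h2 : NoMaxOrder σ.ord.ToType := by
      rw [← noTopOrder_iff_noMaxOrder, ← Order.cof_ne_one_iff, Ordinal.cof_toType]
      exact ((Ordinal.one_lt_cof_iff).2 h1).ne'
    obtain ⟨v', hv'⟩ := exists_gt v
    obtain ⟨w, hw, hle⟩ := hs v'
    exact ⟨⟨w, hw⟩, hv'.trans_le hle⟩
  have h1 : #(σ.ord.ToType → Option PUnit.{u+1}) ≤ #(s → BF σ PUnit.{u+1}) := by
    refine Cardinal.mk_le_of_injective (f := fun f => fun w : s =>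
      (⟨fun v => if v < w then f v else none, w, fun v hv => by
        simp [not_lt.2 hv]⟩ : BF σ PUnit.{u+1})) fun f f' hff => ?_
    funext v
    obtain ⟨w, hw⟩ := hlim v
    have h2 := congrFun (congrArg (fun z : BF σ PUnit.{u+1} =>
      (z : σ.ord.ToType → Option PUnit.{u+1})) (congrFun hff w)) v
    simpa [hw] using h2
  rw [← Cardinal.power_def, ← Cardinal.power_def, hopt, Cardinal.mk_toType, Cardinal.card_ord, hc,
    Ordinal.cof_toType] at h1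
  exact h1.trans (Cardinal.power_le_power_right hBF)

/-- powers from covering families -/
theorem pow_lt_of_cover {κ ν ρ : Cardinal.{u}} (hωκ : ℵ₀ ≤ κ) (hρ : ℵ₀ ≤ ρ)
    (h2 : (2 : Cardinal.{u}) ^ ρ < κ) {S : Type u} (hS : #S = ν)
    (hcov : ∃ F : Set (Set S), #F < κ ∧ (∀ Y ∈ F, #Y ≤ ρ) ∧
      ∀ W : Set S, #W ≤ ρ → ∃ Y ∈ F, W ⊆ Y) : ν ^ ρ < κ := by
  obtain ⟨F, hF1, hF2, hF3⟩ := hcov
  have h1 : ν ^ ρ = #(ρ.out → S) := by
    rw [← Cardinal.power_def, hS, Cardinal.mk_out]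
  rw [h1]
  have h3 : (Set.univ : Set (ρ.out → S)) ⊆ ⋃ Y : F, {f | ∀ x, f x ∈ (Y : Set S)} := by
    intro f _
    have h4 : #(Set.range f) ≤ ρ := by
      refine Cardinal.mk_range_le.trans ?_
      rw [Cardinal.mk_out]
    obtain ⟨Y, hY, hWY⟩ := hF3 _ h4
    exact Set.mem_iUnion.2 ⟨⟨Y, hY⟩, fun x => hWY ⟨x, rfl⟩⟩
  have h4 : ∀ Y : F, #{f : ρ.out → S | ∀ x, f x ∈ (Y : Set S)} ≤ 2 ^ ρ := by
    intro Y
    have h5 : #{f : ρ.out → S | ∀ x, f x ∈ (Y : Set S)} ≤ #(ρ.out → (Y : Set S)) := by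
      refine Cardinal.mk_le_of_injective (f := fun f : {f : ρ.out → S | ∀ x, f x ∈ (Y : Set S)} =>
        fun x => (⟨(f : ρ.out → S) x, f.2 x⟩ : (Y : Set S))) fun f g hfg => ?_
      apply Subtype.ext
      funext x
      exact congrArg (fun z : (Y : Set S) => (z : S)) (congrFun hfg x)
    refine h5.trans ?_
    rw [← Cardinal.power_def, Cardinal.mk_out]
    refine (Cardinal.power_le_power_right (hF2 Y Y.2)).trans ?_
    rw [Cardinal.power_self_eq hρ]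
  have h5 := (Cardinal.mk_le_mk_of_subset h3).trans (Cardinal.mk_iUnion_le_sum_mk.trans
    (Cardinal.sum_le_sum _ _ h4))
  rw [Cardinal.mk_univ, Cardinal.sum_const'] at h5
  exact h5.trans_lt (Cardinal.mul_lt_of_lt hωκ hF1 h2)

end Card

variable {B : Type u} [BooleanAlgebra B] {κ ν m σ ρ : Cardinal.{u}}

open Classical in
/-- disjoint families in the unbounded case -/
theorem exists_family_gen (hω : ℵ₀ ≤ κ) (hB : #B = κ) (hstar : Star κ B) (htop : ¬ Sc (⊤ : B))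
    (hων : ℵ₀ ≤ ν) (hg : Gen ν (Sm κ B)) (hνm : ν ≤ m) (hρ : ρ.IsRegular) (hρm : ρ ≤ m)
    (hm : ∀ τ < ρ, m ^ τ ≤ m) (hmκ : m < κ)
    {ι : Type u} (hι : #ι ≤ ρ) {b : B} (hb : b ∈ Sm κ B) (hbm : m < #(Iic b)) :
    ∃ d : ι → B, (∀ i, m < #(Iic (d i))) ∧ (∀ i, d i ≤ b) ∧
      ∀ i j, i ≠ j → Disjoint (d i) (d j) := by
  have hωm : ℵ₀ ≤ m := hων.trans hνm
  have hP : IsIdl {x : B | #(Iic x) ≤ m} := isIdl_le hωm
  have hPs : {x : B | #(Iic x) ≤ m} ⊆ Sm κ B := fun x hx => lt_of_le_of_lt hx hmκ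
  have hPc : #{x : B | #(Iic x) ≤ m} ≤ m :=
    (mk_le_of_gen (gen_all hω hB hstar htop hων hg hP hPs) fun x hx => hx).trans
      ((mul_le_mul' hνm le_rfl).trans (Cardinal.mul_eq_self hωm).le)
  by_contra hcon
  refine absurd (mk_iic_le_of_few hρ hρm hm hP b ?_ ?_ ?_) (not_le.2 hbm)
  · exact (Cardinal.mk_le_mk_of_subset fun x hx => hx.1).trans hPc
  · intro e he X hX
    refine (mk_ind_le hων hP hX ?_).trans hνm
    refine gen_all hω hB hstar htop hων hg (isIdl_gen X) (gen_subset (isIdl_Sm hω) ?_)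
    exact fun x hx => (isIdl_Sm hω).lower ((hX.1 hx).trans he) hb
  · intro D hD hDP hDd
    by_contra hbig
    push Not at hbig
    obtain ⟨D', hD', hD'c⟩ := Cardinal.le_mk_iff_exists_subset.1 (hι.trans hbig)
    obtain ⟨e⟩ := Cardinal.eq.1 hD'c.symm
    refine hcon ⟨fun i => (e i : B), fun i => ?_, fun i => hD (hD' (e i).2), fun i j hij => ?_⟩
    · exact not_le.1 (hDP _ (hD' (e i).2))
    · exact hDd (hD' (e i).2) (hD' (e j).2) fun h => hij (e.injective (Subtype.ext h))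

/-- one step of the induction -/
theorem two_pow_le_step (hω : ℵ₀ ≤ κ) (hB : #B = κ) (hstar : Star κ B) (htop : ¬ Sc (⊤ : B))
    (hων : ℵ₀ ≤ ν) (hνκ : ν < κ) (hg : Gen ν (Sm κ B)) (hσ : ℵ₀ ≤ σ) (hσν : σ ≤ ν) (hσρ : σ ≤ ρ)
    (hνm : ν ≤ m) (hρ : ρ.IsRegular) (hρm : ρ ≤ m) (hm : ∀ τ < ρ, m ^ τ ≤ m) (hmκ : m < κ)
    (hunb : ∀ θ < κ, ∃ b ∈ Sm κ B, θ < #(Iic b)) : 2 ^ σ ≤ ν := by
  have hQ : #{x : B | #(Iic x) ≤ ν} ≤ ν :=
    (mk_le_of_gen (gen_all hω hB hstar htop hων hg (isIdl_le hων)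
      fun x hx => lt_of_le_of_lt hx hνκ) fun x hx => hx).trans (Cardinal.mul_eq_self hων).le
  let Big : B → Prop := fun b => b ∈ Sm κ B ∧ m < #(Iic b)
  have hbot : ¬ Big ⊥ := by
    rintro ⟨-, h⟩
    exact absurd (isIdl_le (B := B) (hων.trans hνm)).bot (not_le.2 h)
  have hconv : ∀ x y z, Big x → x ≤ y → y ≤ z → Big z → Big y := by
    rintro x y z ⟨-, hx⟩ hxy hyz ⟨hz, -⟩
    exact ⟨(isIdl_Sm hω).lower hyz hz,
      hx.trans_le (Cardinal.mk_le_mk_of_subset (Iic_subset_Iic.2 hxy))⟩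
  have hfam : ∀ b, Big b → ∃ d : σ.out → B, (∀ i, Big (d i)) ∧ (∀ i, d i ≤ b) ∧
      ∀ i j, i ≠ j → Disjoint (d i) (d j) := by
    rintro b ⟨hb, hbm⟩
    obtain ⟨d, h1, h2, h3⟩ := exists_family_gen hω hB hstar htop hων hg hνm hρ hρm hm hmκ
      (ι := σ.out) (by rw [Cardinal.mk_out]; exact hσρ) hb hbm
    exact ⟨d, fun i => ⟨(isIdl_Sm hω).lower (h2 i) hb, h1 i⟩, h2, h3⟩
  obtain ⟨b, hb, hbm⟩ := hunb m hmκ
  have h := two_pow_le hω hB hstar hσ (Cardinal.mk_out σ) Big hbot hconv (fun x hx => hx.1) hfam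
    (b := b) ⟨hb, hbm⟩
  have hsub : {x : B | #(Iic x) ≤ σ} ⊆ {x : B | #(Iic x) ≤ ν} := by
    intro x hx
    have h1 : #(Iic x) ≤ σ := hx
    exact h1.trans hσν
  exact h.trans ((Cardinal.mk_le_mk_of_subset hsub).trans hQ)

/-- covering families for the subsets of a set of cardinality `cf κ` -/
def CofCover (κ : Cardinal.{u}) : Prop := ∀ S : Type u, #S = κ.ord.cof → ∀ ρ < #S,
  ∃ F : Set (Set S), #F < κ ∧ (∀ Y ∈ F, #Y ≤ ρ) ∧ ∀ W : Set S, #W ≤ ρ → ∃ Y ∈ F, W ⊆ Y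

/-- the powers of two in the unbounded case -/
theorem two_pow_le_cof (hω : ℵ₀ ≤ κ) (hB : #B = κ) (hstar : Star κ B) (htop : ¬ Sc (⊤ : B))
    (hsing : κ.ord.cof < κ) (hcov : CofCover κ)
    (hunb : ∀ θ < κ, ∃ b ∈ Sm κ B, θ < #(Iic b)) (σ : Cardinal.{u}) : σ < κ.ord.cof →
    (2 : Cardinal.{u}) ^ σ ≤ κ.ord.cof := by
  have hν : (κ.ord.cof).IsRegular := Cardinal.isRegular_cof (Cardinal.isSuccLimit_ord hω)
  have hων : ℵ₀ ≤ κ.ord.cof := hν.aleph0_le
  have hg : Gen κ.ord.cof (Sm κ B) := gen_Sm hω hB hstar hων le_rfl hunb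
  induction σ using WellFoundedLT.induction with
  | ind σ ih =>
    intro hσν
    rcases lt_or_ge σ ℵ₀ with hfin | hσ
    · exact (Cardinal.power_lt_aleph0 Cardinal.natCast_lt_aleph0 hfin).le.trans hων
    have ih' : ∀ ρ < σ, (2 : Cardinal.{u}) ^ ρ ≤ κ.ord.cof := fun ρ hρ =>
      ih ρ hρ (hρ.trans hσν)
    have hcov' : ∀ ρ < κ.ord.cof, ℵ₀ ≤ ρ → (2 : Cardinal.{u}) ^ ρ < κ → κ.ord.cof ^ ρ < κ :=
      fun ρ hρ hωρ h2 => pow_lt_of_cover hω hωρ h2 (Cardinal.mk_out κ.ord.cof)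
        (hcov _ (Cardinal.mk_out _) ρ (by rw [Cardinal.mk_out]; exact hρ))
    have hpow : ∀ ρ < σ, κ.ord.cof ^ ρ < κ := by
      intro ρ hρ
      rcases lt_or_ge ρ ℵ₀ with hρf | hρω
      · obtain ⟨n, rfl⟩ := Cardinal.lt_aleph0.1 hρf
        exact (Cardinal.power_nat_le hων).trans_lt hsing
      · exact hcov' ρ (hρ.trans hσν) hρω ((ih' ρ hρ).trans_lt hsing)
    by_cases hreg : σ.IsRegular
    · set c : Cardinal.{u} := max κ.ord.cof (⨆ w : σ.ord.ToType, κ.ord.cof ^ #(Iio w)) with hc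
      have hcκ : c < κ := by
        refine max_lt hsing (Cardinal.iSup_lt_of_lt_cof_ord ?_ fun w => hpow _ (mk_Iio_lt w))
        rw [Cardinal.mk_toType, Cardinal.card_ord]
        exact hσν
      have hopt : #(Option κ.ord.cof.out) = κ.ord.cof := by
        rw [Cardinal.mk_option, Cardinal.mk_out, Cardinal.add_one_eq hων]
      have hne : Nonempty κ.ord.cof.out := by
        rw [← Cardinal.mk_ne_zero_iff, Cardinal.mk_out]
        exact (Cardinal.aleph0_pos.trans_le hων).ne'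
      have hmc : #(BF σ κ.ord.cof.out) ≤ c := by
        refine mk_BF_le (hων.trans (le_max_left _ _)) (hσν.le.trans (le_max_left _ _))
          fun ρ hρ => ?_
        rw [hopt]
        obtain ⟨w, hw⟩ := exists_mk_Iio hρ
        rw [← hw]
        exact (le_ciSup Cardinal.bddAbove_of_small w).trans (le_max_right _ _)
      refine two_pow_le_step hω hB hstar htop hων hsing hg hσ hσν.le le_rfl ?_ hreg le_mk_BF
        (fun τ hτ => mk_BF_pow hreg hτ) (hmc.trans_lt hcκ) hunb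
      have h := mk_le_mk_BF (β := κ.ord.cof.out) hσ
      rwa [Cardinal.mk_out] at h
    · have hcof : σ.ord.cof < σ := by
        by_contra h
        exact hreg ⟨hσ, not_lt.1 h⟩
      have h2 : (2 : Cardinal.{u}) ^ σ < κ :=
        (two_pow_le_pow_cof hσ hσν.le ih').trans_lt (hpow _ hcof)
      have h3 : κ.ord.cof ^ σ < κ := hcov' σ hσν hσ h2
      have hνm : κ.ord.cof ≤ κ.ord.cof ^ σ :=
        Cardinal.self_le_power _ (Cardinal.one_lt_aleph0.le.trans hσ)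
      refine two_pow_le_step hω hB hstar htop hων hsing hg hσ hσν.le (Order.le_succ σ) hνm
        (Cardinal.isRegular_succ hσ) ((Order.succ_le_of_lt hσν).trans hνm) (fun τ hτ => ?_) h3 hunb
      rw [← Cardinal.power_mul]
      refine Cardinal.power_le_power_left (Cardinal.aleph0_pos.trans_le hων).ne' ?_
      exact (mul_le_mul' le_rfl (Order.lt_succ_iff.1 hτ)).trans (Cardinal.mul_eq_self hσ).le

/-- the two covering conditions -/
theorem sc_top_of_cover' (hω : ℵ₀ ≤ κ) (hB : #B = κ) (hstar : Star κ B)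
    (hsing : κ.ord.cof < κ) (h1 : CofCover κ) (h2 : CoverProp κ) : Sc (⊤ : B) := by
  by_contra htop
  by_cases hunb : ∀ θ < κ, ∃ b ∈ Sm κ B, θ < #(Iic b)
  · exact htop (sc_top_of_cover hω hB hstar ⟨κ.ord.cof, hsing, fun τ hτ =>
      two_pow_le_cof hω hB hstar htop hsing h1 hunb τ hτ⟩ h2)
  · push Not at hunb
    obtain ⟨θ, hθ, hb⟩ := hunb
    exact bounded_false hω hB hstar htop hsing h2 hθ hb

/-- small cofinality -/
theorem cofCover_of_lt (hω : ℵ₀ ≤ κ) (hsing : κ.ord.cof < κ) (h : κ.ord.cof < ℵ_ ω) :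
    CofCover κ := by
  intro S hS ρ hρ
  have hων : ℵ₀ ≤ κ.ord.cof := (Cardinal.isRegular_cof (Cardinal.isSuccLimit_ord hω)).aleph0_le
  rcases lt_or_ge ρ ℵ₀ with hρf | hρω
  · refine ⟨{Y | #Y ≤ ρ}, ?_, fun Y hY => hY, fun W hW => ⟨W, hW, Subset.rfl⟩⟩
    obtain ⟨n, rfl⟩ := Cardinal.lt_aleph0.1 hρf
    refine lt_of_le_of_lt (Cardinal.mk_bounded_set_le S n) ?_
    rw [hS, max_eq_left hων]
    exact (Cardinal.power_nat_le hων).trans_lt hsing
  · have hreg : ∀ c, ρ < c → c < Order.succ κ.ord.cof → c.IsRegular := by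
      intro c h1 h2
      obtain ⟨β, rfl⟩ := Cardinal.mem_range_aleph_iff.2 (hρω.trans h1.le)
      have h3 : ℵ_ β < ℵ_ ω := (Order.lt_succ_iff.1 h2).trans_lt h
      obtain ⟨n, rfl⟩ := Ordinal.lt_omega0.1 (Cardinal.aleph_lt_aleph.1 h3)
      cases n with
      | zero =>
        rw [Nat.cast_zero, Cardinal.aleph_zero] at h1
        exact absurd hρω (not_le.2 h1)
      | succ k =>
        rw [Nat.cast_succ]
        exact Cardinal.isRegular_aleph_add_one _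
    obtain ⟨F, hF1, hF2, hF3⟩ := exists_cover (κ := Order.succ κ.ord.cof) hρω hreg #S S rfl
      (by rw [hS]; exact Order.lt_succ _)
    refine ⟨F, hF1.trans_lt (max_lt (by rw [hS]; exact hsing) ?_), hF2, hF3⟩
    rw [hS] at hρ
    exact hρ.trans hsing

end Pool.Agent.U744.SA
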